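import Pool.Agent.MPC.Defs

/-! # [MPC-A1] uniqueness of the representation of a prime as a sum of two squares -/

set_option autoImplicit false

namespace MPC

private theorem A1_coprime {x y p : ℕ} (hp : p.Prime) (h : x ^ 2 + y ^ 2 = p) : Nat.Coprime x y := by
  have h1 : Nat.gcd x y ^ 2 ∣ p := by
    rw [← h]
    exact Nat.dvd_add (pow_dvd_pow_of_dvd (Nat.gcd_dvd_left x y) 2) (pow_dvd_pow_of_dvd (Nat.gcd_dvd_right x y) 2)
  have h2 : Nat.gcd x y ∣ p := (dvd_pow_self _ two_ne_zero).trans h1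
  rcases (Nat.dvd_prime hp).1 h2 with h3 | h3
  · exact h3
  · rw [h3] at h1
    have h4 := Nat.le_of_dvd hp.pos h1
    have h5 := hp.two_le
    nlinarith

private theorem A1_core {x y u v : ℕ} (hp : (x ^ 2 + y ^ 2).Prime) (h : x ^ 2 + y ^ 2 = u ^ 2 + v ^ 2)
    (h1 : 0 < y) (h2 : y < x) (h3 : 0 < v) (h4 : v < u) : x = u ∧ y = v := by
  obtain ⟨p, hpd⟩ : ∃ p, p = x ^ 2 + y ^ 2 := ⟨_, rfl⟩
  rw [← hpd] at hp
  have hx := A1_coprime hp hpd.symm
  have hu := A1_coprime hp (hpd.trans h).symm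
  have hpZ : Prime (p : ℤ) := Nat.prime_iff_prime_int.1 hp
  have e1 : (p : ℤ) = (x : ℤ) ^ 2 + (y : ℤ) ^ 2 := by rw [hpd]; push_cast; ring
  have e2 : (p : ℤ) = (u : ℤ) ^ 2 + (v : ℤ) ^ 2 := by rw [hpd, h]; push_cast; ring
  have p0 : (0 : ℤ) < p := by exact_mod_cast hp.pos
  have z1 : (0 : ℤ) < y := by exact_mod_cast h1
  have z2 : (y : ℤ) < x := by exact_mod_cast h2
  have z3 : (0 : ℤ) < v := by exact_mod_cast h3
  have z4 : (v : ℤ) < u := by exact_mod_cast h4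
  have hd : (p : ℤ) ∣ ((x : ℤ) * v - u * y) * (x * v + u * y) := by
    refine ⟨(x : ℤ) ^ 2 - u ^ 2, ?_⟩
    have : ((x : ℤ) * v - u * y) * (x * v + u * y) = (x : ℤ) ^ 2 * (u ^ 2 + v ^ 2) - u ^ 2 * (x ^ 2 + y ^ 2) := by ring
    rw [this, ← e1, ← e2]
    ring
  have s1 : ((x : ℤ) * v + u * y) ^ 2 + (x * u - y * v) ^ 2 = (p : ℤ) ^ 2 := by
    have : (p : ℤ) ^ 2 = ((x : ℤ) ^ 2 + y ^ 2) * (u ^ 2 + v ^ 2) := by rw [← e1, ← e2]; ring
    rw [this]
    ring
  have s2 : ((x : ℤ) * v - u * y) ^ 2 + (x * u + y * v) ^ 2 = (p : ℤ) ^ 2 := by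
    have : (p : ℤ) ^ 2 = ((x : ℤ) ^ 2 + y ^ 2) * (u ^ 2 + v ^ 2) := by rw [← e1, ← e2]; ring
    rw [this]
    ring
  have g1 : (0 : ℤ) < x * u - y * v := by nlinarith
  have z5 : (0 : ℤ) < x := by linarith
  have z6 : (0 : ℤ) < u := by linarith
  have g2 : (0 : ℤ) < x * u + y * v := by positivity
  have g3 : (0 : ℤ) < x * v + u * y := by positivity
  have key : (x : ℤ) * v = u * y := by
    rcases hpZ.dvd_or_dvd hd with h5 | h5
    · have b1 : |(x : ℤ) * v - u * y| < p := by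
        apply abs_lt_of_sq_lt_sq _ p0.le
        have : 0 < ((x : ℤ) * u + y * v) ^ 2 := by positivity
        linarith
      have b2 := Int.eq_zero_of_abs_lt_dvd h5 b1
      linarith
    · exfalso
      have b1 : (x : ℤ) * v + u * y < p := by
        apply lt_of_pow_lt_pow_left₀ 2 p0.le
        have : 0 < ((x : ℤ) * u - y * v) ^ 2 := by positivity
        linarith
      have b2 := Int.le_of_dvd g3 h5
      linarith
  have keyN : x * v = u * y := by exact_mod_cast key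
  have d1 : x ∣ u := by
    apply hx.dvd_of_dvd_mul_right
    exact ⟨v, by rw [← keyN]⟩
  have d2 : u ∣ x := by
    apply hu.dvd_of_dvd_mul_right
    exact ⟨y, by rw [keyN]⟩
  have hxu : x = u := Nat.dvd_antisymm d1 d2
  refine ⟨hxu, ?_⟩
  rw [hxu] at keyN
  exact (Nat.eq_of_mul_eq_mul_left (by omega) keyN).symm

/-- [MPC-A1] PROOF. `p = nm z = nm w`, `z = (x, y)`, `w = (u, v)`. `p ∣ x² v² - u² y² = (x v - u y) (x v + u y)`
(`x² v² - u² y² = x² (u² + v²) - u² (x² + y²)`). `0 < x v + u y`, `(x v + u y)² + (x u - y v)² = p²` and `x u - y v > 0`, so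
`x v + u y < p`; and `|x v - u y| < p`. So `x v = u y`; `x`, `y` coprime (`p` prime), `u`, `v` coprime: `x = u`, `y = v`. -/
theorem uniq {z w : ℕ × ℕ} (hp : (nm z).Prime) (h : nm z = nm w) (h1 : 0 < z.2) (h2 : z.2 < z.1)
    (h3 : 0 < w.2) (h4 : w.2 < w.1) : z = w := by
  obtain ⟨x, y⟩ := z
  obtain ⟨u, v⟩ := w
  have := A1_core hp h h1 h2 h3 h4
  exact Prod.ext this.1 this.2

end MPC
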