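import Pool.Agent.MPC.Defs

/-! # [MPC-A2] the roots of `-1` attached to Gaussian integers -/

set_option autoImplicit false

namespace MPC

theorem rt_lt {z : ℕ × ℕ} (h : Good z) : rt z < nm z := by
  have _ : NeZero (nm z) := ⟨(nm_pos h).ne'⟩
  exact ZMod.val_lt _

theorem a2_cop {z : ℕ × ℕ} (h : Good z) : Nat.Coprime z.1 (nm z) := by
  unfold nm
  have h1 : Nat.Coprime z.1 (z.2 ^ 2) := Nat.Coprime.pow_right 2 h.2.2
  rw [pow_two z.1]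
  exact (Nat.coprime_mul_right_add_right z.1 (z.2 ^ 2) z.1).2 h1

theorem a2_inv {z : ℕ × ℕ} (h : Good z) : (z.1 : ZMod (nm z)) * (z.1 : ZMod (nm z))⁻¹ = 1 :=
  ZMod.coe_mul_inv_eq_one _ (a2_cop h)

theorem a2_rt {z : ℕ × ℕ} (h : Good z) : ((rt z : ℕ) : ZMod (nm z)) * z.1 = z.2 := by
  have _ : NeZero (nm z) := ⟨(nm_pos h).ne'⟩
  unfold rt
  rw [ZMod.natCast_zmod_val, mul_assoc, mul_comm (z.1 : ZMod (nm z))⁻¹, a2_inv h, mul_one]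

/-- [MPC-A2] PROOF. `z.1` is a unit modulo `nm z` (`gcd (x, x² + y²) = gcd (x, y²) = 1`). -/
theorem rt_mul {z : ℕ × ℕ} (h : Good z) : (nm z : ℤ) ∣ (rt z : ℤ) * z.1 - z.2 := by
  rw [← ZMod.intCast_zmod_eq_zero_iff_dvd]
  push_cast
  rw [a2_rt h, sub_self]

/-- [MPC-A2] PROOF. `rt² + 1 = 0` modulo `nm z` (multiply by `x²`, a unit), so `n² + s² = n² (1 + rt²) = 0`. -/
theorem dvd_of_cong {z : ℕ × ℕ} (h : Good z) {n s : ℕ} (hs : (nm z : ℤ) ∣ (s : ℤ) - n * rt z) :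
    nm z ∣ n ^ 2 + s ^ 2 := by
  rw [← ZMod.intCast_zmod_eq_zero_iff_dvd] at hs
  push_cast at hs
  rw [sub_eq_zero] at hs
  rw [← ZMod.natCast_eq_zero_iff]
  push_cast
  have h0 : ((z.1 : ZMod (nm z)) ^ 2 + (z.2 : ZMod (nm z)) ^ 2) = 0 := by
    have h1 : ((nm z : ℕ) : ZMod (nm z)) = 0 := ZMod.natCast_self _
    have h2 : ((nm z : ℕ) : ZMod (nm z)) = (z.1 : ZMod (nm z)) ^ 2 + (z.2 : ZMod (nm z)) ^ 2 := by
      conv_lhs => unfold nm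
      push_cast
      rfl
    rw [← h2, h1]
  have h3 : (1 : ZMod (nm z)) + (rt z : ZMod (nm z)) ^ 2 = 0 := by
    have h4 : (z.1 : ZMod (nm z)) ^ 2 * (1 + (rt z : ZMod (nm z)) ^ 2) = 0 := by
      rw [← h0, ← a2_rt h]; ring
    have h5 := congrArg (fun t => (z.1 : ZMod (nm z))⁻¹ ^ 2 * t) h4
    simp only [mul_zero] at h5
    rw [← mul_assoc, ← mul_pow, mul_comm (z.1 : ZMod (nm z))⁻¹, a2_inv h, one_pow, one_mul] at h5
    exact h5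
  rw [hs]
  calc (n : ZMod (nm z)) ^ 2 + ((n : ZMod (nm z)) * (rt z : ZMod (nm z))) ^ 2
      = (n : ZMod (nm z)) ^ 2 * (1 + (rt z : ZMod (nm z)) ^ 2) := by ring
    _ = 0 := by rw [h3, mul_zero]

end MPC
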