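import Pool.Agent.MPC.A2

/-! # [MPC-A3] from a root to an integer `s` -/

set_option autoImplicit false

namespace MPC

/-- [MPC-A3] PROOF. `a = n * rt z / p - A / Y - u` is an integer, `u = Int.fract`. `s = n * rt z - a p = p (A / Y + u)`. `p A / Y ≥ A`, `u > 0`: `s > A`;
`p A / Y ≤ A + g / 2` and `p u < 2 Y · g / (4 Y) = g / 2`: `s < A + g`. -/
theorem exists_s {z : ℕ × ℕ} (hz : Good z) {n A g : ℕ} {Y : ℝ} (hY : 0 < Y) (h1 : Y ≤ nm z) (h2 : (nm z : ℝ) ≤ 2 * Y)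
    (h3 : (A : ℝ) * ((nm z : ℝ) - Y) ≤ g * Y / 2)
    (h4 : 0 < Int.fract (n * th z - A / Y)) (h5 : Int.fract (n * th z - A / Y) < g / (4 * Y)) :
    ∃ s ∈ Finset.Ioo A (A + g), nm z ∣ n ^ 2 + s ^ 2 := by
  have hpN : 0 < nm z := nm_pos hz
  have hp : (0 : ℝ) < nm z := by exact_mod_cast hpN
  set u : ℝ := Int.fract (n * th z - A / Y) with hu
  set a : ℤ := ⌊n * th z - A / Y⌋ with ha
  have h6 : n * th z - A / Y = a + u := (Int.floor_add_fract _).symm
  have h7 : (nm z : ℝ) * th z = rt z := by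
    unfold th
    field_simp
  have hs : (((n : ℤ) * rt z - a * nm z : ℤ) : ℝ) = nm z * (A / Y + u) := by
    push_cast
    have : (n : ℝ) * rt z = nm z * (n * th z) := by
      rw [← h7]
      ring
    rw [this]
    have h8 : n * th z = a + u + A / Y := by linarith
    rw [h8]
    ring
  have h9 : (A : ℝ) ≤ nm z * (A / Y) := by
    rw [mul_div_assoc', le_div_iff₀ hY]
    have : (0 : ℝ) ≤ A := Nat.cast_nonneg A
    nlinarith
  have h10 : (nm z : ℝ) * (A / Y) ≤ A + g / 2 := by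
    rw [mul_div_assoc', div_le_iff₀ hY]
    nlinarith
  have h11 : (0 : ℝ) < nm z * u := mul_pos hp h4
  have h12 : (nm z : ℝ) * u < g / 2 := by
    have h13 : (nm z : ℝ) * u < nm z * (g / (4 * Y)) := mul_lt_mul_of_pos_left h5 hp
    have h14 : (nm z : ℝ) * (g / (4 * Y)) ≤ g / 2 := by
      rw [mul_div_assoc', div_le_iff₀ (by linarith)]
      have : (0 : ℝ) ≤ g := Nat.cast_nonneg g
      nlinarith
    linarith
  have h15 : (A : ℝ) < (((n : ℤ) * rt z - a * nm z : ℤ) : ℝ) := by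
    rw [hs, mul_add]
    linarith
  have h16 : (((n : ℤ) * rt z - a * nm z : ℤ) : ℝ) < A + g := by
    rw [hs, mul_add]
    linarith
  have h17 : (A : ℤ) < (n : ℤ) * rt z - a * nm z := by exact_mod_cast h15
  have h18 : (n : ℤ) * rt z - a * nm z < (A : ℤ) + g := by exact_mod_cast h16
  obtain ⟨s, hs'⟩ := Int.eq_ofNat_of_zero_le (a := (n : ℤ) * rt z - a * nm z) (by omega)
  refine ⟨s, ?_, ?_⟩
  · rw [Finset.mem_Ioo]
    omega
  · refine dvd_of_cong hz ⟨-a, ?_⟩
    rw [← hs']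
    ring

end MPC
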