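import Pool.Agent.MPC.A2

/-! # [MPC-A4] spacing of the roots of `-1` -/

set_option autoImplicit false

namespace MPC

theorem A4_k {z : ℕ × ℕ} (hz : Good z) :
    ∃ k : ℤ, (rt z : ℤ) * z.1 = z.2 + k * nm z ∧ (z.1 : ℤ) ∣ k * z.2 + 1 := by
  obtain ⟨k, hk⟩ := rt_mul hz
  refine ⟨k, by linarith, ?_⟩
  have h1 : (z.1 : ℤ) ∣ z.2 * (k * z.2 + 1) := by
    refine ⟨rt z - k * z.1, ?_⟩
    have h2 : (nm z : ℤ) = (z.1 : ℤ) ^ 2 + (z.2 : ℤ) ^ 2 := by unfold nm; push_cast; ring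
    rw [h2] at hk
    linear_combination -hk
  have h3 : IsCoprime (z.1 : ℤ) (z.2 : ℤ) := Nat.isCoprime_iff_coprime.2 hz.2.2
  exact h3.dvd_of_dvd_mul_left h1

/-- the point `th z` is `k / x + y / (x p)` -/
theorem A4_th {z : ℕ × ℕ} (hz : Good z) {k : ℤ} (hk : (rt z : ℤ) * z.1 = z.2 + k * nm z) :
    th z = (k : ℝ) / z.1 + z.2 / (z.1 * nm z) := by
  have hx : (0 : ℝ) < z.1 := by
    have := hz.1
    have := hz.2.1
    exact_mod_cast (by omega : 0 < z.1)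
  have hp : (0 : ℝ) < nm z := by exact_mod_cast nm_pos hz
  have hk' : (rt z : ℝ) * z.1 = z.2 + k * nm z := by exact_mod_cast hk
  unfold th
  rw [div_add_div _ _ hx.ne' (mul_pos hx hp).ne', div_eq_div_iff hp.ne' (mul_pos hx (mul_pos hx hp)).ne']
  linear_combination (z.1 : ℝ) * nm z * hk'

/-- the size of the two summands -/
theorem A4_size {Y : ℝ} (hY : 0 < Y) {z w : ℕ × ℕ} (hz : Good z) (hw : Good w)
    (h1 : Y ≤ nm z) (h2 : (nm z : ℝ) ≤ 129 / 128 * Y) (h4 : (nm w : ℝ) ≤ 129 / 128 * Y) :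
    1 / (4 * Y) ≤ 1 / ((z.1 : ℝ) * w.1) - z.2 / (z.1 * nm z) := by
  set s := Real.sqrt Y with hs
  have hs0 : 0 < s := Real.sqrt_pos.2 hY
  have hs2 : s ^ 2 = Y := Real.sq_sqrt hY.le
  have hx : (0 : ℝ) < z.1 := by
    have := hz.1
    have := hz.2.1
    exact_mod_cast (by omega : 0 < z.1)
  have hx' : (0 : ℝ) < w.1 := by
    have := hw.1
    have := hw.2.1
    exact_mod_cast (by omega : 0 < w.1)
  have hy : (0 : ℝ) < z.2 := by exact_mod_cast hz.1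
  have hyx : (z.2 : ℝ) < z.1 := by exact_mod_cast hz.2.1
  have hp : (0 : ℝ) < nm z := by exact_mod_cast nm_pos hz
  have e1 : (nm z : ℝ) = (z.1 : ℝ) ^ 2 + (z.2 : ℝ) ^ 2 := by unfold nm; push_cast; ring
  have e2 : (nm w : ℝ) = (w.1 : ℝ) ^ 2 + (w.2 : ℝ) ^ 2 := by unfold nm; push_cast; ring
  have b1 : (z.1 : ℝ) ≤ 1.004 * s := by
    refine abs_le_of_sq_le_sq' ?_ (by positivity) |>.2
    rw [mul_pow, hs2]
    nlinarith [sq_nonneg (z.2 : ℝ)]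
  have b2 : (w.1 : ℝ) ≤ 1.004 * s := by
    refine abs_le_of_sq_le_sq' ?_ (by positivity) |>.2
    rw [mul_pow, hs2]
    nlinarith [sq_nonneg (w.2 : ℝ)]
  have b3 : (z.2 : ℝ) * s ≤ 0.7072 * nm z := by
    refine abs_le_of_sq_le_sq' ?_ (by positivity) |>.2
    rw [mul_pow, mul_pow, hs2]
    have c1 : (z.2 : ℝ) ^ 2 ≤ nm z / 2 := by
      rw [e1]
      nlinarith
    have c2 : (z.2 : ℝ) ^ 2 * Y ≤ (nm z / 2) * nm z :=
      mul_le_mul c1 h1 hY.le (by positivity)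
    nlinarith [sq_nonneg (nm z : ℝ)]
  have b4 : (z.2 : ℝ) / nm z ≤ 0.7072 / s := by
    rw [div_le_div_iff₀ hp hs0]
    linarith
  have b5 : 1 / (1.004 * s) ≤ 1 / (w.1 : ℝ) := one_div_le_one_div_of_le hx' b2
  have b6 : 1 / (1.004 * s) ≤ 1 / (z.1 : ℝ) := one_div_le_one_div_of_le hx b1
  have e3 : 1 / ((z.1 : ℝ) * w.1) - z.2 / (z.1 * nm z) = 1 / (z.1 : ℝ) * (1 / w.1 - z.2 / nm z) := by
    field_simp
  rw [e3]
  have b7 : 0.288 / s ≤ 1 / (w.1 : ℝ) - z.2 / nm z := by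
    have d1 : 0.288 / s + 0.7072 / s ≤ 1 / (1.004 * s) := by
      rw [← add_div, div_le_div_iff₀ hs0 (by positivity)]
      nlinarith
    linarith
  have b8 : (0 : ℝ) ≤ 1 / (1.004 * s) := by positivity
  have b9 : 1 / (1.004 * s) * (0.288 / s) ≤ 1 / (z.1 : ℝ) * (1 / w.1 - z.2 / nm z) :=
    mul_le_mul b6 b7 (by positivity) (by positivity)
  refine le_trans ?_ b9
  have e4 : 1 / (1.004 * s) * (0.288 / s) = 0.288 / 1.004 / Y := by
    rw [← hs2]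
    field_simp
  rw [e4, div_le_div_iff₀ (by positivity) hY]
  nlinarith

/-- [MPC-A4] PROOF. `x · rt = y + k p`, `0 ≤ k` (as `y < p`, `k p > - p`), so `th z = k / x + y / (x p)`, `k y = -1` modulo `x` and `k` is prime
to `x` (`p = y²` modulo `x`, `y` a unit modulo `x`). The same for `w = (x', y')`, `p'`, `k'`.
If `k x' - k' x - m x x' = 0`, then `x ∣ k x'`, so `x ∣ x'`, and `x' ∣ x`: `x = x'`, `x ∣ k - k'`, `x ∣ k (y - y')` , `y = y'`: `z = w`.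
Otherwise `|k/x - k'/x' - m| ≥ 1/(x x')`. If `y/(x p) ≥ y'/(x' p')`, then `|th z - th w - m| ≥ (1/x) (1/x' - y/p)`
(the other case is symmetric), `x, x' ≤ √(129/128 Y)`, `y / p ≤ 1/√(2 p) ≤ 1/√(2 Y)` (`2 y² ≤ p`),
`(1 / 1.0039) (1/1.0039 - 0.7072) ≥ 1/4`. -/
theorem th_space {Y : ℝ} (hY : 0 < Y) {z w : ℕ × ℕ} (hz : Good z) (hw : Good w)
    (h1 : Y ≤ nm z) (h2 : (nm z : ℝ) ≤ 129 / 128 * Y) (h3 : Y ≤ nm w) (h4 : (nm w : ℝ) ≤ 129 / 128 * Y)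
    (hne : z ≠ w) (m : ℤ) : 1 / (4 * Y) ≤ |th z - th w - m| := by
  obtain ⟨k, hk, hk'⟩ := A4_k hz
  obtain ⟨l, hl, hl'⟩ := A4_k hw
  have ez := A4_th hz hk
  have ew := A4_th hw hl
  have hx0 : 0 < z.1 := by
    have := hz.1
    have := hz.2.1
    omega
  have hx0' : 0 < w.1 := by
    have := hw.1
    have := hw.2.1
    omega
  have hx : (0 : ℝ) < z.1 := by exact_mod_cast hx0
  have hx' : (0 : ℝ) < w.1 := by exact_mod_cast hx0'
  have hpz : (0 : ℝ) < nm z := by exact_mod_cast nm_pos hz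
  have hpw : (0 : ℝ) < nm w := by exact_mod_cast nm_pos hw
  have hne0 : k * w.1 - l * z.1 - m * (z.1 * w.1) ≠ 0 := by
    intro h0
    have c1 : IsCoprime (z.1 : ℤ) k := by
      obtain ⟨c, hc⟩ := hk'
      exact ⟨c, -z.2, by linarith⟩
    have c2 : IsCoprime (w.1 : ℤ) l := by
      obtain ⟨c, hc⟩ := hl'
      exact ⟨c, -w.2, by linarith⟩
    have d1 : (z.1 : ℤ) ∣ w.1 := by
      refine c1.dvd_of_dvd_mul_left ⟨l + m * w.1, ?_⟩
      linear_combination h0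
    have d2 : (w.1 : ℤ) ∣ z.1 := by
      refine c2.dvd_of_dvd_mul_left ⟨k - m * z.1, ?_⟩
      linear_combination -h0
    have e1 : z.1 = w.1 := Nat.dvd_antisymm (Int.natCast_dvd_natCast.1 d1) (Int.natCast_dvd_natCast.1 d2)
    have e1' : (w.1 : ℤ) = z.1 := by rw [e1]
    rw [e1'] at h0 hl'
    have d3 : (z.1 : ℤ) ∣ k - l := by
      refine ⟨m, ?_⟩
      have h5 : (z.1 : ℤ) ≠ 0 := by exact_mod_cast hx0.ne'
      refine mul_right_cancel₀ h5 ?_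
      linear_combination h0
    have d4 : (z.1 : ℤ) ∣ k * ((z.2 : ℤ) - w.2) := by
      have h6 : k * ((z.2 : ℤ) - w.2) = (k * z.2 + 1) - (l * w.2 + 1) - (k - l) * w.2 := by ring
      rw [h6]
      exact dvd_sub (dvd_sub hk' hl') (d3.mul_right _)
    have d5 : (z.1 : ℤ) ∣ (z.2 : ℤ) - w.2 := c1.dvd_of_dvd_mul_left d4
    have e2 : (z.2 : ℤ) - w.2 = 0 := by
      refine Int.eq_zero_of_abs_lt_dvd d5 ?_
      rw [abs_lt]
      have f1 := hz.1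
      have f2 := hz.2.1
      have f3 := hw.1
      have f4 := hw.2.1
      constructor <;> omega
    apply hne
    refine Prod.ext e1 ?_
    omega
  have h6 : (1 : ℝ) ≤ |(k : ℝ) * w.1 - l * z.1 - m * (z.1 * w.1)| := by
    have := Int.one_le_abs hne0
    exact_mod_cast this
  have h7 : 1 / ((z.1 : ℝ) * w.1) ≤ |(k : ℝ) / z.1 - l / w.1 - m| := by
    have e3 : (k : ℝ) / z.1 - l / w.1 - m = ((k : ℝ) * w.1 - l * z.1 - m * (z.1 * w.1)) / (z.1 * w.1) := by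
      field_simp
    rw [e3, abs_div, abs_of_pos (mul_pos hx hx')]
    exact div_le_div_of_nonneg_right h6 (mul_pos hx hx').le
  have s1 := A4_size hY hz hw h1 h2 h4
  have s2 := A4_size hY hw hz h3 h4 h2
  have g1 : (0 : ℝ) ≤ z.2 / (z.1 * nm z) := by positivity
  have g2 : (0 : ℝ) ≤ w.2 / (w.1 * nm w) := by positivity
  have h8 : th z - th w - m = ((k : ℝ) / z.1 - l / w.1 - m) + ((z.2 : ℝ) / (z.1 * nm z) - w.2 / (w.1 * nm w)) := by
    rw [ez, ew]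
    ring
  rw [h8]
  have h9 : |(z.2 : ℝ) / (z.1 * nm z) - w.2 / (w.1 * nm w)| ≤ 1 / ((z.1 : ℝ) * w.1) - 1 / (4 * Y) := by
    rw [mul_comm (w.1 : ℝ) (z.1 : ℝ)] at s2
    rw [abs_le]
    constructor <;> linarith
  have h10 := abs_sub_abs_le_abs_sub ((k : ℝ) / z.1 - l / w.1 - m) (-((z.2 : ℝ) / (z.1 * nm z) - w.2 / (w.1 * nm w)))
  rw [abs_neg, sub_neg_eq_add] at h10
  linarith

end MPC
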