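import Mathlib
import Pool.Agent.MP_ffd2b5_nt.LF

/-! # [MPC-B] the tent -/

set_option autoImplicit false

namespace MPC

open Finset

/-- the tent `(J - |k|)⁺` -/
def tent (J : ℕ) (k : ℤ) : ℝ := max 0 ((J : ℝ) - |(k : ℝ)|)

/-- the self-correlation of the tent -/
noncomputable def rr (J : ℕ) (h : ℤ) : ℝ := ∑ k ∈ Icc (-(J : ℤ)) J, tent J k * tent J (h - k)

end MPC
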