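import Pool.Agent.MPC.B0

/-! # [MPC-B1] the fourth power of the kernel -/

set_option autoImplicit false

namespace MPC

open Finset

theorem b1_Icc (J : ℕ) : Icc (-((J + 1 : ℕ) : ℤ)) ((J + 1 : ℕ) : ℤ) =
    insert ((J + 1 : ℕ) : ℤ) (insert (-((J + 1 : ℕ) : ℤ)) (Icc (-(J : ℤ)) J)) := by
  ext x
  simp only [mem_Icc, mem_insert]
  omega

theorem b1_sum_Icc_succ (f : ℤ → ℂ) (J : ℕ) :
    ∑ k ∈ Icc (-((J + 1 : ℕ) : ℤ)) ((J + 1 : ℕ) : ℤ), f k =
      f ((J + 1 : ℕ) : ℤ) + (f (-((J + 1 : ℕ) : ℤ)) + ∑ k ∈ Icc (-(J : ℤ)) J, f k) := by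
  rw [b1_Icc, sum_insert, sum_insert]
  · simp only [mem_Icc]
    omega
  · simp only [mem_Icc, mem_insert]
    omega

theorem b1_sum_Icc (f : ℤ → ℂ) (J : ℕ) :
    ∑ k ∈ Icc (-(J : ℤ)) J, f k =
      f 0 + ∑ i ∈ range J, f ((i : ℤ) + 1) + ∑ i ∈ range J, f (-((i : ℤ) + 1)) := by
  induction J with
  | zero => simp
  | succ J ih =>
    rw [b1_sum_Icc_succ, ih, sum_range_succ, sum_range_succ]
    push_cast
    ring

theorem b1_refl (f : ℤ → ℂ) (J : ℕ) :
    ∑ j ∈ range J, f ((j : ℤ) - J) = ∑ i ∈ range J, f (-((i : ℤ) + 1)) := by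
  rw [← sum_range_reflect]
  refine sum_congr rfl fun j hj => ?_
  rw [mem_range] at hj
  congr 1
  omega

theorem b1_refl' (f : ℤ → ℂ) (J : ℕ) :
    ∑ j ∈ range J, f ((J : ℤ) - j) = ∑ i ∈ range J, f ((i : ℤ) + 1) := by
  rw [← sum_range_reflect]
  refine sum_congr rfl fun j hj => ?_
  rw [mem_range] at hj
  congr 1
  omega

theorem tent_succ (J : ℕ) {k : ℤ} (hk : k ∈ Icc (-(J : ℤ)) J) :
    tent (J + 1) k = tent J k + 1 := by
  rw [mem_Icc] at hk
  have h1 : |(k : ℝ)| ≤ (J : ℝ) := by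
    rw [abs_le]
    constructor
    · have := hk.1
      exact_mod_cast this
    · have := hk.2
      exact_mod_cast this
  unfold tent
  push_cast
  rw [max_eq_right (by linarith), max_eq_right (by linarith)]
  ring

theorem tent_of_le (J : ℕ) {k : ℤ} (hk : (J : ℤ) ≤ |k|) : tent J k = 0 := by
  have h1 : (J : ℝ) ≤ |(k : ℝ)| := by exact_mod_cast hk
  unfold tent
  exact max_eq_left (by linarith)

theorem b1_double (f : ℤ → ℂ) (J : ℕ) :
    ∑ i ∈ range J, ∑ j ∈ range J, f ((i : ℤ) - j) =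
      ∑ k ∈ Icc (-(J : ℤ)) J, (tent J k : ℂ) * f k := by
  induction J with
  | zero =>
    simp [tent]
  | succ J ih =>
    have h1 : ∑ i ∈ range (J + 1), ∑ j ∈ range (J + 1), f ((i : ℤ) - j) =
        ∑ i ∈ range J, ∑ j ∈ range J, f ((i : ℤ) - j) + (f 0 + ∑ i ∈ range J, f ((i : ℤ) + 1) +
          ∑ i ∈ range J, f (-((i : ℤ) + 1))) := by
      rw [sum_range_succ]
      simp only [sum_range_succ _ J]
      rw [sum_add_distrib, b1_refl, b1_refl', sub_self]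
      ring
    rw [h1, ih, ← b1_sum_Icc, b1_sum_Icc_succ]
    have h2 : tent (J + 1) ((J + 1 : ℕ) : ℤ) = 0 := tent_of_le _ (le_abs_self _)
    have h3 : tent (J + 1) (-((J + 1 : ℕ) : ℤ)) = 0 := by
      apply tent_of_le
      rw [abs_neg]
      exact le_abs_self _
    rw [h2, h3]
    simp only [Complex.ofReal_zero, zero_mul, zero_add]
    rw [← sum_add_distrib]
    refine sum_congr rfl fun k hk => ?_
    rw [tent_succ J hk]
    push_cast
    ring

theorem b1_shift (F : ℤ → ℂ) (J : ℕ) {k : ℤ} (hk : k ∈ Icc (-(J : ℤ)) J) :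
    ∑ l ∈ Icc (-(J : ℤ)) J, (tent J l : ℂ) * F (k + l) =
      ∑ h ∈ Icc (-(2 * J : ℤ)) (2 * J), (tent J (h - k) : ℂ) * F h := by
  rw [mem_Icc] at hk
  have h1 : ∑ l ∈ Icc (-(J : ℤ)) J, (tent J l : ℂ) * F (k + l) =
      ∑ h ∈ (Icc (-(J : ℤ)) J).image (fun l => k + l), (tent J (h - k) : ℂ) * F h := by
    rw [sum_image]
    · refine sum_congr rfl fun l _ => ?_
      rw [add_sub_cancel_left]
    · intro a _ b _ hab
      simp only at hab
      omega
  rw [h1]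
  apply sum_subset
  · intro h hh
    rw [mem_image] at hh
    obtain ⟨l, hl, rfl⟩ := hh
    rw [mem_Icc] at hl ⊢
    omega
  · intro h _ hh
    rw [tent_of_le, Complex.ofReal_zero, zero_mul]
    by_contra hcon
    apply hh
    rw [mem_image]
    refine ⟨h - k, ?_, by ring⟩
    rw [mem_Icc]
    rw [not_le, abs_lt] at hcon
    omega

theorem e_add' (a b : ℝ) : Pool.Agent.MP_ffd2b5_nt.e (a + b) =
    Pool.Agent.MP_ffd2b5_nt.e a * Pool.Agent.MP_ffd2b5_nt.e b := by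
  unfold Pool.Agent.MP_ffd2b5_nt.e
  rw [← Complex.exp_add]
  congr 1
  push_cast
  ring

theorem e_re' (a : ℝ) : (Pool.Agent.MP_ffd2b5_nt.e a).re = Real.cos (2 * Real.pi * a) := by
  unfold Pool.Agent.MP_ffd2b5_nt.e
  have h : 2 * (Real.pi : ℂ) * Complex.I * (a : ℂ) = ((2 * Real.pi * a : ℝ) : ℂ) * Complex.I := by
    push_cast
    ring
  rw [h, Complex.exp_ofReal_mul_I_re]

theorem e_conj' (a : ℝ) : (starRingEnd ℂ) (Pool.Agent.MP_ffd2b5_nt.e a) =
    Pool.Agent.MP_ffd2b5_nt.e (-a) := by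
  unfold Pool.Agent.MP_ffd2b5_nt.e
  rw [← Complex.exp_conj]
  congr 1
  simp only [map_mul, Complex.conj_I, Complex.conj_ofReal]
  rw [show (starRingEnd ℂ) 2 = 2 from Complex.conj_ofNat 2]
  push_cast
  ring

/-- [MPC-B1] PROOF. `‖∑_{j<J} e (j t)‖² = ∑_k tent k · cos (2 π k t)`; square it. (Index sums over `Icc (-J) J`, `Icc (-2J) (2J)`; the tent vanishes for `|k| ≥ J`.) -/
theorem kernel_sq (J : ℕ) (t : ℝ) :
    ‖∑ j ∈ range J, Pool.Agent.MP_ffd2b5_nt.e (j * t)‖ ^ 4 =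
      ∑ h ∈ Icc (-(2 * J : ℤ)) (2 * J), rr J h * Real.cos (2 * Real.pi * h * t) := by
  set S : ℂ := ∑ j ∈ range J, Pool.Agent.MP_ffd2b5_nt.e (j * t) with hS
  set f : ℤ → ℂ := fun k => Pool.Agent.MP_ffd2b5_nt.e ((k : ℝ) * t) with hf
  have hfadd : ∀ k l : ℤ, f (k + l) = f k * f l := by
    intro k l
    simp only [hf]
    rw [← e_add']
    congr 1
    push_cast
    ring
  have h1 : ((‖S‖ ^ 2 : ℝ) : ℂ) = ∑ k ∈ Icc (-(J : ℤ)) J, (tent J k : ℂ) * f k := by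
    rw [← b1_double, Complex.ofReal_pow, ← Complex.mul_conj', hS, map_sum, sum_mul_sum]
    refine sum_congr rfl fun i _ => sum_congr rfl fun j _ => ?_
    rw [e_conj', ← e_add']
    simp only [hf]
    congr 1
    push_cast
    ring
  have h2 : ((‖S‖ ^ 4 : ℝ) : ℂ) =
      ∑ h ∈ Icc (-(2 * J : ℤ)) (2 * J), (rr J h : ℂ) * f h := by
    have e1 : ((‖S‖ ^ 4 : ℝ) : ℂ) = ((‖S‖ ^ 2 : ℝ) : ℂ) * ((‖S‖ ^ 2 : ℝ) : ℂ) := by
      push_cast
      ring
    rw [e1, h1, sum_mul_sum]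
    have e2 : ∀ k ∈ Icc (-(J : ℤ)) J,
        ∑ l ∈ Icc (-(J : ℤ)) J, (tent J k : ℂ) * f k * ((tent J l : ℂ) * f l) =
          ∑ h ∈ Icc (-(2 * J : ℤ)) (2 * J), ((tent J k * tent J (h - k) : ℝ) : ℂ) * f h := by
      intro k hk
      have e3 := b1_shift f J hk
      calc ∑ l ∈ Icc (-(J : ℤ)) J, (tent J k : ℂ) * f k * ((tent J l : ℂ) * f l) =
          (tent J k : ℂ) * ∑ l ∈ Icc (-(J : ℤ)) J, (tent J l : ℂ) * f (k + l) := by
            rw [mul_sum]
            refine sum_congr rfl fun l _ => ?_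
            rw [hfadd]
            ring
        _ = _ := by
            rw [e3, mul_sum]
            refine sum_congr rfl fun h _ => ?_
            push_cast
            ring
    rw [sum_congr rfl e2, sum_comm]
    refine sum_congr rfl fun h _ => ?_
    rw [← sum_mul]
    unfold rr
    push_cast
    rfl
  have h3 := congrArg Complex.re h2
  rw [Complex.ofReal_re, Complex.re_sum] at h3
  rw [h3]
  refine sum_congr rfl fun h _ => ?_
  rw [Complex.re_ofReal_mul]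
  simp only [hf]
  rw [e_re']
  congr 2
  ring

end MPC
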