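import Pool.Agent.MPC.B0

/-! # [MPC-B2] the coefficients -/

set_option autoImplicit false

namespace MPC

open Finset

theorem b2_nonneg (J : ℕ) (k : ℤ) : 0 ≤ tent J k := le_max_left _ _

theorem b2_le (J : ℕ) (k : ℤ) : tent J k ≤ J := by
  unfold tent
  have h1 := abs_nonneg (k : ℝ)
  have h2 : (0 : ℝ) ≤ J := Nat.cast_nonneg J
  exact max_le h2 (by linarith)

theorem b2_neg (J : ℕ) (k : ℤ) : tent J (-k) = tent J k := by
  unfold tent
  rw [Int.cast_neg, abs_neg]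

theorem b2_zero (J : ℕ) (k : ℤ) (hk : (J : ℤ) ≤ |k|) : tent J k = 0 := by
  unfold tent
  have h : (J : ℝ) ≤ |(k : ℝ)| := by exact_mod_cast hk
  exact max_eq_left (by linarith)

theorem b2_step (J : ℕ) (k : ℤ) (hk : |k| ≤ (J : ℤ)) : tent (J + 1) k = tent J k + 1 := by
  unfold tent
  have h : |(k : ℝ)| ≤ (J : ℝ) := by exact_mod_cast hk
  have h' : (0 : ℝ) ≤ ((J + 1 : ℕ) : ℝ) - |(k : ℝ)| := by
    push_cast
    linarith
  rw [max_eq_right h', max_eq_right (by linarith)]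
  push_cast
  ring

theorem b2_sum (J : ℕ) : ∑ k ∈ Icc (-(J : ℤ)) J, tent J k = (J : ℝ) ^ 2 := by
  induction J with
  | zero =>
    have : Icc (-((0 : ℕ) : ℤ)) ((0 : ℕ) : ℤ) = {0} := by
      ext k
      rw [mem_Icc, mem_singleton]
      push_cast
      omega
    rw [this, Finset.sum_singleton]
    unfold tent
    simp
  | succ J ih =>
    have h1 : ∑ k ∈ Icc (-((J + 1 : ℕ) : ℤ)) ((J + 1 : ℕ) : ℤ), tent (J + 1) k =
        ∑ k ∈ Icc (-(J : ℤ)) J, tent (J + 1) k := by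
      symm
      refine Finset.sum_subset ?_ ?_
      · intro k hk
        rw [mem_Icc] at hk ⊢
        push_cast
        omega
      · intro k _ hk2
        apply b2_zero
        rw [mem_Icc, ← abs_le] at hk2
        push_cast
        omega
    rw [h1]
    have h2 : ∑ k ∈ Icc (-(J : ℤ)) J, tent (J + 1) k = ∑ k ∈ Icc (-(J : ℤ)) J, (tent J k + 1) := by
      refine Finset.sum_congr rfl fun k hk => ?_
      rw [mem_Icc, ← abs_le] at hk
      exact b2_step J k hk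
    rw [h2, Finset.sum_add_distrib, ih, Finset.sum_const, Int.card_Icc, nsmul_eq_mul]
    have h3 : ((J : ℤ) + 1 - -(J : ℤ)).toNat = 2 * J + 1 := by omega
    rw [h3]
    push_cast
    ring

/-- [MPC-B2] symmetric, nonnegative, `≤ J³`, zero from `2 J` on; Cauchy-Schwarz `(∑ tent)² = J⁴ ≤ (2 J) ∑ tent²`, `rr 0 = ∑ tent²`. -/
theorem rr_neg (J : ℕ) (h : ℤ) : rr J (-h) = rr J h := by
  unfold rr
  refine Finset.sum_equiv (Equiv.neg ℤ) ?_ ?_
  · intro k
    rw [Equiv.neg_apply, mem_Icc, mem_Icc]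
    omega
  · intro k _
    rw [Equiv.neg_apply, b2_neg]
    have : -h - k = -(h - -k) := by ring
    rw [this, b2_neg]

theorem rr_nonneg (J : ℕ) (h : ℤ) : 0 ≤ rr J h :=
  Finset.sum_nonneg fun k _ => mul_nonneg (b2_nonneg J k) (b2_nonneg J _)

theorem rr_le (J : ℕ) (h : ℤ) : rr J h ≤ (J : ℝ) ^ 3 := by
  unfold rr
  calc ∑ k ∈ Icc (-(J : ℤ)) J, tent J k * tent J (h - k)
      ≤ ∑ k ∈ Icc (-(J : ℤ)) J, tent J k * J :=
        Finset.sum_le_sum fun k _ => mul_le_mul_of_nonneg_left (b2_le J _) (b2_nonneg J k)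
    _ = (J : ℝ) ^ 3 := by
        rw [← Finset.sum_mul, b2_sum]
        ring

theorem rr_zero_ge (J : ℕ) : (J : ℝ) ^ 3 / 2 ≤ rr J 0 := by
  rcases Nat.eq_zero_or_pos J with rfl | hJ
  · have := rr_nonneg 0 0
    simpa using this
  have h0 : ∑ k ∈ Icc (-(J : ℤ) + 1) (J - 1), tent J k = (J : ℝ) ^ 2 := by
    rw [← b2_sum J]
    refine Finset.sum_subset ?_ ?_
    · intro k hk
      rw [mem_Icc] at hk ⊢
      omega
    · intro k _ hk
      apply b2_zero
      rw [mem_Icc] at hk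
      rcases abs_cases k with ⟨h, h2⟩ | ⟨h, h2⟩ <;> omega
  have h1 : ∑ k ∈ Icc (-(J : ℤ) + 1) (J - 1), tent J k ^ 2 = rr J 0 := by
    unfold rr
    have : ∀ k ∈ Icc (-(J : ℤ) + 1) (J - 1), tent J k ^ 2 = tent J k * tent J (0 - k) := by
      intro k _
      rw [zero_sub, b2_neg]
      ring
    rw [Finset.sum_congr rfl this]
    refine Finset.sum_subset ?_ ?_
    · intro k hk
      rw [mem_Icc] at hk ⊢
      omega
    · intro k _ hk
      have h3 : tent J k = 0 := by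
        apply b2_zero
        rw [mem_Icc] at hk
        rcases abs_cases k with ⟨h, h2⟩ | ⟨h, h2⟩ <;> omega
      rw [h3, zero_mul]
  have h2 := sq_sum_le_card_mul_sum_sq (s := Icc (-(J : ℤ) + 1) ((J : ℤ) - 1)) (f := tent J)
  rw [h0, h1, Int.card_Icc] at h2
  have h3 : ((J : ℤ) - 1 + 1 - (-(J : ℤ) + 1)).toNat = 2 * J - 1 := by omega
  rw [h3] at h2
  have h4 : ((2 * J - 1 : ℕ) : ℝ) ≤ 2 * J := by
    have : (2 * J - 1 : ℕ) ≤ 2 * J := Nat.sub_le _ _
    exact_mod_cast this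
  have h5 := rr_nonneg J 0
  have hJ0 : (0 : ℝ) < J := by exact_mod_cast hJ
  have h6 : ((J : ℝ) ^ 2) ^ 2 ≤ 2 * J * rr J 0 :=
    h2.trans (mul_le_mul_of_nonneg_right h4 h5)
  have h7 : (J : ℝ) * ((J : ℝ) ^ 3 / 2) ≤ J * rr J 0 := by
    have : ((J : ℝ) ^ 2) ^ 2 = J * (J : ℝ) ^ 3 := by ring
    linarith
  exact le_of_mul_le_mul_left h7 hJ0

theorem rr_far (J : ℕ) (h : ℤ) (hh : 2 * (J : ℤ) ≤ |h|) : rr J h = 0 := by
  unfold rr
  refine Finset.sum_eq_zero fun k hk => ?_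
  rw [mem_Icc, ← abs_le] at hk
  have h1 : (J : ℤ) ≤ |h - k| := by
    have := abs_sub_abs_le_abs_sub h k
    omega
  rw [b2_zero J (h - k) h1, mul_zero]

end MPC
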