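import Pool.Agent.MPC.B0

/-! # [MPC-B3] second differences of the coefficients -/

set_option autoImplicit false

namespace MPC

open Finset

def b3_tz (J : ℕ) (k : ℤ) : ℤ := max 0 (min ((J : ℤ) - k) ((J : ℤ) + k))

theorem b3_tent (J : ℕ) (k : ℤ) : tent J k = (b3_tz J k : ℝ) := by
  unfold tent b3_tz
  push_cast
  rcases abs_cases (k : ℝ) with ⟨h, h2⟩ | ⟨h, h2⟩
  · rw [h, min_eq_left (by linarith)]
  · rw [h, min_eq_right (by linarith), sub_neg_eq_add]

theorem b3_zero (J : ℕ) (k : ℤ) (hk : k ∉ Icc (-(J : ℤ)) J) : tent J k = 0 := by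
  rw [b3_tent]
  have : b3_tz J k = 0 := by
    unfold b3_tz
    rw [mem_Icc] at hk
    omega
  rw [this, Int.cast_zero]

theorem b3_D (J : ℕ) (hJ : 1 ≤ J) (k : ℤ) :
    2 * tent J k - tent J (k - 1) - tent J (k + 1) =
      (if k = 0 then 2 else 0) - (if k = (J : ℤ) then 1 else 0) - (if k = -(J : ℤ) then 1 else 0) := by
  rw [b3_tent, b3_tent, b3_tent]
  have h : 2 * b3_tz J k - b3_tz J (k - 1) - b3_tz J (k + 1) =
      (if k = 0 then 2 else 0) - (if k = (J : ℤ) then 1 else 0) - (if k = -(J : ℤ) then 1 else 0) := by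
    unfold b3_tz
    split_ifs <;> omega
  exact_mod_cast h

theorem b3_sub (J : ℕ) (h : ℤ) (S : Finset ℤ) (hS : Icc (-(J : ℤ)) J ⊆ S) :
    rr J h = ∑ k ∈ S, tent J k * tent J (h - k) := by
  unfold rr
  refine Finset.sum_subset hS fun k _ hk => ?_
  rw [b3_zero J k hk, zero_mul]

theorem b3_shift (J : ℕ) (h c : ℤ) (S : Finset ℤ) (hS : Icc (-(J : ℤ) - c) (J - c) ⊆ S) :
    rr J (h + c) = ∑ k ∈ S, tent J (k + c) * tent J (h - k) := by
  have h1 : ∑ k ∈ S, tent J (k + c) * tent J (h - k) =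
      ∑ k ∈ S.map (addRightEmbedding c), tent J k * tent J (h + c - k) := by
    rw [Finset.sum_map]
    refine Finset.sum_congr rfl fun k _ => ?_
    rw [addRightEmbedding_apply]
    congr 2
    ring
  rw [h1]
  refine b3_sub J (h + c) _ ?_
  intro k hk
  rw [mem_Icc] at hk
  rw [mem_map]
  refine ⟨k - c, hS ?_, ?_⟩
  · rw [mem_Icc]
    constructor <;> linarith
  · rw [addRightEmbedding_apply]
    ring

/-- [MPC-B3] PROOF. `2 rr h - rr (h-1) - rr (h+1) = - ∑_k (tent (k+1) - 2 tent k + tent (k-1)) tent (h - k)` and the second difference of the tent is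
`-2` at `0`, `1` at `± J`, `0` elsewhere (`J ≥ 1`): the sum is `2 tent h - tent (h - J) - tent (h + J)`, of absolute value at most `2 J`; and it is `2 J` at `h = 0`. -/
theorem rr_second (J : ℕ) (hJ : 1 ≤ J) (h : ℤ) :
    2 * rr J h - rr J (h - 1) - rr J (h + 1) = 2 * tent J h - tent J (h - J) - tent J (h + J) := by
  set S : Finset ℤ := Icc (-(J : ℤ) - 1) (J + 1) with hS
  have h0 : rr J h = ∑ k ∈ S, tent J k * tent J (h - k) := by
    refine b3_sub J h S ?_
    intro k hk
    rw [mem_Icc] at hk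
    rw [hS, mem_Icc]
    omega
  have h1 : rr J (h - 1) = ∑ k ∈ S, tent J (k - 1) * tent J (h - k) := by
    refine b3_shift J h (-1) S ?_
    intro k hk
    rw [mem_Icc] at hk
    rw [hS, mem_Icc]
    omega
  have h2 : rr J (h + 1) = ∑ k ∈ S, tent J (k + 1) * tent J (h - k) := by
    refine b3_shift J h 1 S ?_
    intro k hk
    rw [mem_Icc] at hk
    rw [hS, mem_Icc]
    omega
  rw [h0, h1, h2, Finset.mul_sum, ← Finset.sum_sub_distrib, ← Finset.sum_sub_distrib]
  have h3 : ∀ k ∈ S, 2 * (tent J k * tent J (h - k)) - tent J (k - 1) * tent J (h - k) -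
      tent J (k + 1) * tent J (h - k) =
      (if k = 0 then 2 * tent J (h - k) else 0) - (if k = (J : ℤ) then tent J (h - k) else 0) -
        (if k = -(J : ℤ) then tent J (h - k) else 0) := by
    intro k _
    have e : 2 * (tent J k * tent J (h - k)) - tent J (k - 1) * tent J (h - k) -
        tent J (k + 1) * tent J (h - k) =
        (2 * tent J k - tent J (k - 1) - tent J (k + 1)) * tent J (h - k) := by ring
    rw [e, b3_D J hJ k]
    split_ifs <;> ring
  rw [Finset.sum_congr rfl h3, Finset.sum_sub_distrib, Finset.sum_sub_distrib,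
    Finset.sum_ite_eq', Finset.sum_ite_eq', Finset.sum_ite_eq']
  have m0 : (0 : ℤ) ∈ S := by rw [hS, mem_Icc]; omega
  have m1 : (J : ℤ) ∈ S := by rw [hS, mem_Icc]; omega
  have m2 : -(J : ℤ) ∈ S := by rw [hS, mem_Icc]; omega
  rw [if_pos m0, if_pos m1, if_pos m2, sub_zero, sub_neg_eq_add]

end MPC
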