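import Pool.Agent.MPC.B1
import Pool.Agent.MPC.B2
import Pool.Agent.MPC.B3

/-! # [MPC-B4] a trigonometric minorant of an interval -/

set_option autoImplicit false

namespace MPC

open Finset

theorem B4_fs (g : ℤ → ℝ) (a b : ℤ) (h : ∀ k, k ∉ Icc a b → g k = 0) :
    ∑ k ∈ Icc a b, g k = ∑ᶠ k, g k := by
  symm
  refine finsum_eq_sum_of_support_subset g ?_
  intro k hk
  by_contra hc
  exact hk (h k (by simpa using hc))

theorem B4_even (g : ℤ → ℝ) (hg : ∀ k, g (-k) = g k) (n : ℕ) :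
    ∑ k ∈ Icc (-(n : ℤ)) n, g k = g 0 + ∑ h ∈ Icc 1 n, 2 * g (h : ℤ) := by
  induction n with
  | zero => simp
  | succ n ih =>
    have h1 : Icc (-((n + 1 : ℕ) : ℤ)) ((n + 1 : ℕ) : ℤ) =
        insert (-((n + 1 : ℕ) : ℤ)) (insert ((n + 1 : ℕ) : ℤ) (Icc (-(n : ℤ)) n)) := by
      ext k
      simp only [mem_insert, mem_Icc]
      push_cast
      omega
    have h2 : (-((n + 1 : ℕ) : ℤ)) ∉ (insert ((n + 1 : ℕ) : ℤ) (Icc (-(n : ℤ)) n)) := by
      simp only [mem_insert, mem_Icc]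
      push_cast
      omega
    have h3 : ((n + 1 : ℕ) : ℤ) ∉ (Icc (-(n : ℤ)) n) := by
      simp only [mem_Icc]
      push_cast
      omega
    rw [h1, Finset.sum_insert h2, Finset.sum_insert h3, ih, hg,
      Finset.sum_Icc_succ_top (by omega : 1 ≤ n + 1)]
    ring

theorem B4_prod (J : ℕ) (κ t : ℝ) :
    (∑ h ∈ Icc (-(2 * J : ℤ)) (2 * J), rr J h * Real.cos (2 * Real.pi * h * t)) *
      (Real.cos (2 * Real.pi * t) - κ) =
    ∑ k ∈ Icc (-((2 * J + 1 : ℕ) : ℤ)) ((2 * J + 1 : ℕ) : ℤ),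
      ((rr J (k - 1) + rr J (k + 1)) / 2 - κ * rr J k) * Real.cos (2 * Real.pi * k * t) := by
  have e1 : ∑ k ∈ Icc (-((2 * J + 1 : ℕ) : ℤ)) ((2 * J + 1 : ℕ) : ℤ),
      rr J (k - 1) * Real.cos (2 * Real.pi * k * t) =
      ∑ h ∈ Icc (-(2 * J : ℤ)) (2 * J), rr J h * Real.cos (2 * Real.pi * (h + 1) * t) := by
    rw [B4_fs _ _ _ (by
      intro k hk
      rw [rr_far J (k - 1) (by
        rw [mem_Icc] at hk
        push_cast at hk
        rcases le_or_gt 0 k with h | h
        · rw [abs_of_nonneg (by omega)]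
          omega
        · rw [abs_of_neg (by omega)]
          omega), zero_mul]),
      B4_fs _ _ _ (by
      intro k hk
      rw [rr_far J k (by
        rw [mem_Icc] at hk
        rcases le_or_gt 0 k with h | h
        · rw [abs_of_nonneg (by omega)]
          omega
        · rw [abs_of_neg (by omega)]
          omega), zero_mul])]
    rw [← finsum_comp_equiv (Equiv.addRight (1 : ℤ))]
    refine finsum_congr fun k => ?_
    simp only [Equiv.coe_addRight, add_sub_cancel_right]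
    push_cast
    rfl
  have e2 : ∑ k ∈ Icc (-((2 * J + 1 : ℕ) : ℤ)) ((2 * J + 1 : ℕ) : ℤ),
      rr J (k + 1) * Real.cos (2 * Real.pi * k * t) =
      ∑ h ∈ Icc (-(2 * J : ℤ)) (2 * J), rr J h * Real.cos (2 * Real.pi * (h - 1) * t) := by
    rw [B4_fs _ _ _ (by
      intro k hk
      rw [rr_far J (k + 1) (by
        rw [mem_Icc] at hk
        push_cast at hk
        rcases le_or_gt 0 k with h | h
        · rw [abs_of_nonneg (by omega)]
          omega
        · rw [abs_of_nonpos (by omega)]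
          omega), zero_mul]),
      B4_fs _ _ _ (by
      intro k hk
      rw [rr_far J k (by
        rw [mem_Icc] at hk
        rcases le_or_gt 0 k with h | h
        · rw [abs_of_nonneg (by omega)]
          omega
        · rw [abs_of_neg (by omega)]
          omega), zero_mul])]
    rw [← finsum_comp_equiv (Equiv.addRight (-1 : ℤ))]
    refine finsum_congr fun k => ?_
    simp only [Equiv.coe_addRight, neg_add_cancel_right]
    push_cast
    rfl
  have e3 : ∑ k ∈ Icc (-((2 * J + 1 : ℕ) : ℤ)) ((2 * J + 1 : ℕ) : ℤ),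
      rr J k * Real.cos (2 * Real.pi * k * t) =
      ∑ h ∈ Icc (-(2 * J : ℤ)) (2 * J), rr J h * Real.cos (2 * Real.pi * h * t) := by
    rw [B4_fs _ _ _ (by
      intro k hk
      rw [rr_far J k (by
        rw [mem_Icc] at hk
        push_cast at hk
        rcases le_or_gt 0 k with h | h
        · rw [abs_of_nonneg (by omega)]
          omega
        · rw [abs_of_neg (by omega)]
          omega), zero_mul]),
      B4_fs _ _ _ (by
      intro k hk
      rw [rr_far J k (by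
        rw [mem_Icc] at hk
        rcases le_or_gt 0 k with h | h
        · rw [abs_of_nonneg (by omega)]
          omega
        · rw [abs_of_neg (by omega)]
          omega), zero_mul])]
  have e4 : ∑ k ∈ Icc (-((2 * J + 1 : ℕ) : ℤ)) ((2 * J + 1 : ℕ) : ℤ),
      ((rr J (k - 1) + rr J (k + 1)) / 2 - κ * rr J k) * Real.cos (2 * Real.pi * k * t) =
      (∑ k ∈ Icc (-((2 * J + 1 : ℕ) : ℤ)) ((2 * J + 1 : ℕ) : ℤ),
        rr J (k - 1) * Real.cos (2 * Real.pi * k * t)) / 2 +
      (∑ k ∈ Icc (-((2 * J + 1 : ℕ) : ℤ)) ((2 * J + 1 : ℕ) : ℤ),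
        rr J (k + 1) * Real.cos (2 * Real.pi * k * t)) / 2 -
      κ * ∑ k ∈ Icc (-((2 * J + 1 : ℕ) : ℤ)) ((2 * J + 1 : ℕ) : ℤ),
        rr J k * Real.cos (2 * Real.pi * k * t) := by
    rw [Finset.sum_div, Finset.sum_div, Finset.mul_sum, ← Finset.sum_add_distrib,
      ← Finset.sum_sub_distrib]
    exact Finset.sum_congr rfl fun k _ => by ring
  rw [e4, e1, e2, e3, Finset.sum_div, Finset.sum_div, Finset.mul_sum, ← Finset.sum_add_distrib,
    ← Finset.sum_sub_distrib, Finset.sum_mul]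
  refine Finset.sum_congr rfl fun h _ => ?_
  have h1 : Real.cos (2 * Real.pi * (h + 1) * t) + Real.cos (2 * Real.pi * (h - 1) * t) =
      2 * (Real.cos (2 * Real.pi * h * t) * Real.cos (2 * Real.pi * t)) := by
    rw [show 2 * Real.pi * ((h : ℝ) + 1) * t = 2 * Real.pi * h * t + 2 * Real.pi * t by ring,
      show 2 * Real.pi * ((h : ℝ) - 1) * t = 2 * Real.pi * h * t - 2 * Real.pi * t by ring,
      Real.cos_add, Real.cos_sub]
    ring
  linear_combination (-(rr J h) / 2) * h1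

theorem B4_cos_ge (η : ℝ) (h0 : 0 ≤ η) (h1 : η ≤ 1) : 2 * η ^ 2 ≤ 1 - Real.cos (Real.pi * η) := by
  have h2 : η ≤ Real.sin (Real.pi * η / 2) := by
    have := Real.mul_le_sin (x := Real.pi * η / 2) (by positivity)
      (by nlinarith [Real.pi_pos])
    have h3 : 2 / Real.pi * (Real.pi * η / 2) = η := by
      field_simp
    linarith
  have h4 : Real.cos (Real.pi * η) = 1 - 2 * Real.sin (Real.pi * η / 2) ^ 2 := by
    have h5 := Real.cos_two_mul (Real.pi * η / 2)
    have h6 := Real.sin_sq_add_cos_sq (Real.pi * η / 2)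
    rw [show 2 * (Real.pi * η / 2) = Real.pi * η by ring] at h5
    linarith
  rw [h4]
  nlinarith

theorem B4_cos_le (η v : ℝ) (h0 : 0 < η) (h1 : η / 2 ≤ v) (h2 : v ≤ 1 - η / 2) :
    Real.cos (2 * Real.pi * v) ≤ Real.cos (Real.pi * η) := by
  have hpi := Real.pi_pos
  rcases le_or_gt (2 * Real.pi * v) Real.pi with h | h
  · exact Real.cos_le_cos_of_nonneg_of_le_pi (by positivity) h (by nlinarith)
  · rw [← Real.cos_two_pi_sub]
    exact Real.cos_le_cos_of_nonneg_of_le_pi (by positivity) (by nlinarith) (by nlinarith)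

theorem B4_tent (J : ℕ) (k : ℤ) : 0 ≤ tent J k ∧ tent J k ≤ J := by
  unfold tent
  refine ⟨le_max_left _ _, max_le (Nat.cast_nonneg _) ?_⟩
  have := abs_nonneg (k : ℝ)
  linarith

/-- [MPC-B4] PROOF. `J = ⌈2 / η⌉₊` (so `J η ≤ 5 / 2`), `D t = ∑_{j<J} e (j t)`, `ψ t = ‖D t‖⁴ (cos 2πt - cos πη)`. Pointwise: `ψ ≤ J⁴ (1 - cos πη) ≤ J⁴ (π η)²/2`, and `ψ ≤ 0`
if `cos 2πt ≤ cos πη`, that is if the distance from `t` to the integers is `≥ η / 2`. By `kernel_sq` and product to sum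
`ψ t = ∑_{|h| ≤ 2J} b h cos (2 π h t)`, `b h = (rr (h-1) + rr (h+1))/2 - cos πη · rr h = (1 - cos πη) rr h - (2 rr h - rr (h-1) - rr (h+1))/2` (shift the summation; `rr` vanishes from `2J - 1` on:
`rr_far` for `2J`, so sum over `|h| ≤ 2J + 1` if simpler), even in `h`: `c0 = b 0`, `c h = 2 b h`.
`b 0 = (1 - cos πη) rr 0 - J ≥ 2 η² J³/2 - J ≥ J` (hmm: `1 - cos πη = 2 sin² (πη/2) ≥ 2 η²`, `η J ≥ 2`, so `η² J³ ≥ 4 J`);
`|b h| ≤ (πη)²/2 J³ + J ≤ 40 J`. Divide everything by `W = 200 J²` (`≥ J⁴ (πη)²/2`). -/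
theorem minorant : ∃ C : ℝ, 1 ≤ C ∧ ∀ η : ℝ, 0 < η → η ≤ 1 / 2 → ∃ (H : ℕ) (c0 : ℝ) (c : ℕ → ℝ),
    1 ≤ H ∧ (H : ℝ) ≤ C / η ∧ η / C ≤ c0 ∧ (∀ h, |c h| ≤ C * c0) ∧
    ∀ t : ℝ, c0 + ∑ h ∈ Icc 1 H, c h * Real.cos (2 * Real.pi * h * (t - η / 2)) ≤ 1 ∧
      (¬ (0 < Int.fract t ∧ Int.fract t < η) →
        c0 + ∑ h ∈ Icc 1 H, c h * Real.cos (2 * Real.pi * h * (t - η / 2)) ≤ 0) := by
  refine ⟨200, by norm_num, ?_⟩
  intro η hη hη2
  have hpi := Real.pi_pos
  have hpi4 : Real.pi < 3.15 := Real.pi_lt_d2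
  set J : ℕ := ⌈2 / η⌉₊ with hJ
  have hJ1 : 2 / η ≤ J := Nat.le_ceil _
  have hJ2 : (J : ℝ) < 2 / η + 1 := Nat.ceil_lt_add_one (by positivity)
  have hJη : 2 ≤ J * η := by
    rw [div_le_iff₀ hη] at hJ1
    exact hJ1
  have hJη2 : J * η ≤ 5 / 2 := by
    have h1 : (J : ℝ) * η < (2 / η + 1) * η := mul_lt_mul_of_pos_right hJ2 hη
    have h2 : (2 / η + 1) * η = 2 + η := by
      field_simp
    linarith
  have hJpos : (4 : ℝ) ≤ J := by
    nlinarith
  have hJ0 : (0 : ℝ) < J := by linarith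
  have hJnat : 1 ≤ J := by
    have : (1 : ℝ) ≤ J := by linarith
    exact_mod_cast this
  set κ : ℝ := Real.cos (Real.pi * η) with hκ
  have hκ1 : 2 * η ^ 2 ≤ 1 - κ := B4_cos_ge η hη.le (by linarith)
  have hκ2 : 1 - κ ≤ (Real.pi * η) ^ 2 / 2 := by
    have := Real.one_sub_sq_div_two_le_cos (x := Real.pi * η)
    linarith
  have hκ0 : 0 ≤ 1 - κ := by nlinarith [sq_nonneg η]
  let b : ℤ → ℝ := fun k => (rr J (k - 1) + rr J (k + 1)) / 2 - κ * rr J k
  have hbev : ∀ k, b (-k) = b k := by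
    intro k
    have h1 : rr J (-k - 1) = rr J (k + 1) := by
      rw [← rr_neg J (k + 1)]
      congr 1
      ring
    have h2 : rr J (-k + 1) = rr J (k - 1) := by
      rw [← rr_neg J (k - 1)]
      congr 1
      ring
    show (rr J (-k - 1) + rr J (-k + 1)) / 2 - κ * rr J (-k) = _
    rw [h1, h2, rr_neg]
    ring
  have hb_eq : ∀ k, b k = (1 - κ) * rr J k -
      (2 * tent J k - tent J (k - J) - tent J (k + J)) / 2 := by
    intro k
    have h1 := rr_second J hJnat k
    show (rr J (k - 1) + rr J (k + 1)) / 2 - κ * rr J k = _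
    linarith
  have hpe : (Real.pi * η) ^ 2 * J ^ 2 ≤ 63 := by
    have h1 : (Real.pi * η) ^ 2 * J ^ 2 = Real.pi ^ 2 * (J * η) ^ 2 := by ring
    rw [h1]
    have h2 : Real.pi ^ 2 ≤ 10 := by nlinarith
    have h3 : ((J : ℝ) * η) ^ 2 ≤ 25 / 4 := by nlinarith
    nlinarith [sq_nonneg Real.pi, sq_nonneg ((J : ℝ) * η)]
  have hb_abs : ∀ k, |b k| ≤ 40 * J := by
    intro k
    have h1 := rr_nonneg J k
    have h2 := rr_le J k
    have h3 : (1 - κ) * rr J k ≤ 32 * J := by
      calc (1 - κ) * rr J k ≤ ((Real.pi * η) ^ 2 / 2) * (J : ℝ) ^ 3 :=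
            mul_le_mul hκ2 h2 h1 (by positivity)
        _ = ((Real.pi * η) ^ 2 * J ^ 2) * J / 2 := by ring
        _ ≤ 63 * J / 2 := by
            have := mul_le_mul_of_nonneg_right hpe hJ0.le
            linarith
        _ ≤ 32 * J := by linarith
    have h4 : 0 ≤ (1 - κ) * rr J k := mul_nonneg hκ0 h1
    have h5 := B4_tent J k
    have h6 := B4_tent J (k - J)
    have h7 := B4_tent J (k + J)
    rw [hb_eq, abs_le]
    constructor <;> linarith [h5.1, h5.2, h6.1, h6.2, h7.1, h7.2]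
  have hb0 : 3 * J ≤ b 0 := by
    have h1 := rr_zero_ge J
    have h2 : tent J 0 = J := by
      unfold tent
      simp
    have h3 : tent J (0 - J) = 0 := by
      unfold tent
      simp
    have h4 : tent J (0 + J) = 0 := by
      unfold tent
      simp
    rw [hb_eq, h2, h3, h4]
    have h5 : 4 * J ≤ (1 - κ) * rr J 0 := by
      calc (4 : ℝ) * J ≤ (J * η) ^ 2 * J := by
            have : (4 : ℝ) ≤ (J * η) ^ 2 := by nlinarith
            exact mul_le_mul_of_nonneg_right this hJ0.le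
        _ = (2 * η ^ 2) * ((J : ℝ) ^ 3 / 2) := by ring
        _ ≤ (1 - κ) * rr J 0 := mul_le_mul hκ1 h1 (by positivity) hκ0
    linarith
  set W : ℝ := 200 * (J : ℝ) ^ 2 with hW
  have hW0 : 0 < W := by positivity
  have hψ : ∀ u : ℝ, b 0 / W + ∑ h ∈ Icc 1 (2 * J + 1), (2 * b h / W) *
      Real.cos (2 * Real.pi * h * u) =
      ‖∑ j ∈ range J, Pool.Agent.MP_ffd2b5_nt.e (j * u)‖ ^ 4 *
        (Real.cos (2 * Real.pi * u) - κ) / W := by
    intro u
    rw [kernel_sq, B4_prod J κ u,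
      B4_even (fun k => ((rr J (k - 1) + rr J (k + 1)) / 2 - κ * rr J k) *
        Real.cos (2 * Real.pi * k * u)) (by
          intro k
          have h1 := hbev k
          show b (-k) * Real.cos (2 * Real.pi * ((-k : ℤ) : ℝ) * u) =
            b k * Real.cos (2 * Real.pi * (k : ℝ) * u)
          rw [h1]
          congr 1
          rw [show 2 * Real.pi * ((-k : ℤ) : ℝ) * u = -(2 * Real.pi * (k : ℝ) * u) by
            push_cast; ring, Real.cos_neg]) (2 * J + 1)]
    rw [add_div, Finset.sum_div]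
    congr 1
    · show b 0 / W = b 0 * Real.cos (2 * Real.pi * ((0 : ℤ) : ℝ) * u) / W
      simp
    · refine Finset.sum_congr rfl fun h _ => ?_
      show 2 * b h / W * Real.cos (2 * Real.pi * h * u) =
        2 * (b h * Real.cos (2 * Real.pi * ((h : ℤ) : ℝ) * u)) / W
      push_cast
      ring
  have hDle : ∀ u : ℝ, ‖∑ j ∈ range J, Pool.Agent.MP_ffd2b5_nt.e (j * u)‖ ≤ J := by
    intro u
    refine (norm_sum_le _ _).trans ?_
    have h1 : ∀ j ∈ range J, ‖Pool.Agent.MP_ffd2b5_nt.e (j * u)‖ ≤ 1 := by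
      intro j _
      unfold Pool.Agent.MP_ffd2b5_nt.e
      rw [show (2 * (Real.pi : ℂ) * Complex.I * (((j : ℝ) * u : ℝ) : ℂ)) =
        ((2 * Real.pi * (j * u) : ℝ) : ℂ) * Complex.I by push_cast; ring,
        Complex.norm_exp_ofReal_mul_I]
    refine (Finset.sum_le_sum h1).trans ?_
    simp
  refine ⟨2 * J + 1, b 0 / W, fun h => 2 * b h / W, by omega, ?_, ?_, ?_, ?_⟩
  · rw [le_div_iff₀ hη]
    push_cast
    nlinarith
  · rw [le_div_iff₀ hW0, hW]
    have h1 : η / 200 * (200 * (J : ℝ) ^ 2) = (J * η) * J := by ring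
    rw [h1]
    nlinarith
  · intro h
    have h1 := hb_abs h
    show |2 * b h / W| ≤ 200 * (b 0 / W)
    rw [abs_div, abs_of_pos hW0, abs_mul, abs_two, ← mul_div_assoc]
    refine div_le_div_of_nonneg_right ?_ hW0.le
    linarith
  · intro t
    have hmain := hψ (t - η / 2)
    constructor
    · show b 0 / W + ∑ h ∈ Icc 1 (2 * J + 1), (2 * b h / W) *
        Real.cos (2 * Real.pi * h * (t - η / 2)) ≤ 1
      rw [hmain, div_le_one hW0]
      have h1 := hDle (t - η / 2)
      have h2 : ‖∑ j ∈ range J, Pool.Agent.MP_ffd2b5_nt.e (j * (t - η / 2))‖ ^ 4 ≤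
          (J : ℝ) ^ 4 := pow_le_pow_left₀ (norm_nonneg _) h1 4
      have h3 : Real.cos (2 * Real.pi * (t - η / 2)) - κ ≤ (Real.pi * η) ^ 2 / 2 := by
        have := Real.cos_le_one (2 * Real.pi * (t - η / 2))
        linarith
      calc _ ≤ ‖∑ j ∈ range J, Pool.Agent.MP_ffd2b5_nt.e (j * (t - η / 2))‖ ^ 4 *
            ((Real.pi * η) ^ 2 / 2) := mul_le_mul_of_nonneg_left h3 (by positivity)
        _ ≤ (J : ℝ) ^ 4 * ((Real.pi * η) ^ 2 / 2) :=
            mul_le_mul_of_nonneg_right h2 (by positivity)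
        _ = ((Real.pi * η) ^ 2 * J ^ 2) * J ^ 2 / 2 := by ring
        _ ≤ 63 * J ^ 2 / 2 := by
            have := mul_le_mul_of_nonneg_right hpe (sq_nonneg (J : ℝ))
            linarith
        _ ≤ W := by
            rw [hW]
            nlinarith [sq_nonneg (J : ℝ)]
    · intro ht
      show b 0 / W + ∑ h ∈ Icc 1 (2 * J + 1), (2 * b h / W) *
        Real.cos (2 * Real.pi * h * (t - η / 2)) ≤ 0
      rw [hmain]
      have h1 : Real.cos (2 * Real.pi * (t - η / 2)) ≤ κ := by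
        have h2 : Real.cos (2 * Real.pi * (t - η / 2)) =
            Real.cos (2 * Real.pi * (Int.fract t - η / 2)) := by
          have h3 : t = Int.fract t + (⌊t⌋ : ℝ) := (Int.fract_add_floor t).symm
          rw [show 2 * Real.pi * (t - η / 2) =
            2 * Real.pi * (Int.fract t - η / 2) + (⌊t⌋ : ℝ) * (2 * Real.pi) by
              nth_rewrite 1 [h3]; ring]
          exact Real.cos_add_int_mul_two_pi _ _
        rw [h2]
        have hf0 := Int.fract_nonneg t
        have hf1 := Int.fract_lt_one t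
        rcases eq_or_lt_of_le hf0 with h4 | h4
        · rw [← h4, show 2 * Real.pi * (0 - η / 2) = -(Real.pi * η) by ring, Real.cos_neg]
        · have h5 : η ≤ Int.fract t := by
            by_contra hc
            exact ht ⟨h4, not_le.1 hc⟩
          exact B4_cos_le η _ hη (by linarith) (by linarith)
      apply div_nonpos_of_nonpos_of_nonneg _ hW0.le
      exact mul_nonpos_of_nonneg_of_nonpos (by positivity) (by linarith)

end MPC
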