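import Pool.Agent.MPC.A4

/-! # [MPC-C1] the large sieve for products -/

set_option autoImplicit false

namespace MPC

open Finset Pool.Agent.MP_ffd2b5_nt

/-- [MPC-C1] PROOF. `large_sieve` (`Pool.Agent.MP_ffd2b5_nt.large_sieve`) with `R = Z`, `α = th`, `δ = 1 / (4 Y)` (`th_space`), `N = 2 M H + 1` and
`a m = ∑ (h, n) ∈ Icc 1 H ×ˢ E, h n = m, b h` : `∑_n ∑_h b h e (h n θ) = ∑_m a m e (m θ)` (`Finset.sum_fiberwise`), `|a m|² ≤ T ∑_{h n = m} |b h|²`
(Cauchy, at most `T` pairs: `h ∣ m`), `∑_m |a m|² ≤ T B² H |E|`. -/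
theorem sieve_double {M H : ℕ} {Y T B : ℝ} (hM : 1 ≤ M) (hH : 1 ≤ H) (hY : 1 ≤ Y) (Z : Finset (ℕ × ℕ)) (E : Finset ℕ)
    (hZ : ∀ z ∈ Z, Good z ∧ Y ≤ nm z ∧ (nm z : ℝ) ≤ 129 / 128 * Y)
    (hE : ∀ n ∈ E, 1 ≤ n ∧ n ≤ 2 * M)
    (hT : ∀ m : ℕ, 1 ≤ m → m ≤ 2 * M * H → (m.divisors.card : ℝ) ≤ T)
    (b : ℕ → ℂ) (hb : ∀ h, ‖b h‖ ≤ B) :
    ∑ z ∈ Z, ‖∑ n ∈ E, ∑ h ∈ Icc 1 H, b h * e (h * n * th z)‖ ^ 2 ≤
      16 * (2 * M * H + 4 * Y + 2) * (T * B ^ 2 * H * E.card) := by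
  classical
  have hY0 : 0 < Y := by linarith
  set P : Finset (ℕ × ℕ) := Icc 1 H ×ˢ E with hP
  set N : ℕ := 2 * M * H + 1 with hN
  let a : ℕ → ℂ := fun m => ∑ q ∈ P.filter (fun q => q.1 * q.2 = m), b q.1
  have hmem : ∀ q ∈ P, 1 ≤ q.1 * q.2 ∧ q.1 * q.2 ≤ 2 * M * H := by
    intro q hq
    rw [hP, mem_product, mem_Icc] at hq
    obtain ⟨⟨h1, h2⟩, h3⟩ := hq
    obtain ⟨h4, h5⟩ := hE _ h3
    refine ⟨Nat.mul_pos h1 h4, ?_⟩
    calc q.1 * q.2 ≤ H * (2 * M) := Nat.mul_le_mul h2 h5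
      _ = 2 * M * H := by ring
  have hmaps : ∀ q ∈ P, q.1 * q.2 ∈ range N := by
    intro q hq
    rw [mem_range, hN]
    exact Nat.lt_succ_of_le (hmem q hq).2
  have key : ∀ θ : ℝ, ∑ n ∈ E, ∑ h ∈ Icc 1 H, b h * e (h * n * θ) =
      ∑ m ∈ range N, a m * e (m * θ) := by
    intro θ
    rw [Finset.sum_comm, ← Finset.sum_product' (Icc 1 H) E (fun h n => b h * e (h * n * θ)),
      ← Finset.sum_fiberwise_of_maps_to (s := P) (t := range N) (g := fun q => q.1 * q.2) hmaps]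
    refine Finset.sum_congr rfl fun m _ => ?_
    rw [Finset.sum_mul]
    refine Finset.sum_congr rfl fun q hq => ?_
    have h1 : q.1 * q.2 = m := (mem_filter.1 hq).2
    rw [← h1]
    push_cast
    rfl
  have hT0 : 0 ≤ T := by
    have h1 := hT 1 le_rfl (Nat.mul_pos (Nat.mul_pos two_pos hM) hH)
    have h2 : (0 : ℝ) ≤ ((1 : ℕ).divisors.card : ℝ) := Nat.cast_nonneg _
    linarith
  have hcard : ∀ m ∈ range N, ‖a m‖ ^ 2 ≤
      ∑ q ∈ P.filter (fun q => q.1 * q.2 = m), T * B ^ 2 := by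
    intro m _
    have h1 : ‖a m‖ ≤ ∑ q ∈ P.filter (fun q => q.1 * q.2 = m), ‖b q.1‖ := norm_sum_le _ _
    have h2 : ‖a m‖ ^ 2 ≤ (∑ q ∈ P.filter (fun q => q.1 * q.2 = m), ‖b q.1‖) ^ 2 :=
      pow_le_pow_left₀ (norm_nonneg _) h1 2
    have h3 : (∑ q ∈ P.filter (fun q => q.1 * q.2 = m), ‖b q.1‖) ^ 2 ≤
        ((P.filter (fun q => q.1 * q.2 = m)).card : ℝ) *
          ∑ q ∈ P.filter (fun q => q.1 * q.2 = m), ‖b q.1‖ ^ 2 := sq_sum_le_card_mul_sum_sq
    have h4 : ∑ q ∈ P.filter (fun q => q.1 * q.2 = m), ‖b q.1‖ ^ 2 ≤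
        ∑ q ∈ P.filter (fun q => q.1 * q.2 = m), B ^ 2 :=
      Finset.sum_le_sum fun q _ => pow_le_pow_left₀ (norm_nonneg _) (hb _) 2
    have h5 : ((P.filter (fun q => q.1 * q.2 = m)).card : ℝ) ≤ T := by
      rcases Finset.eq_empty_or_nonempty (P.filter (fun q => q.1 * q.2 = m)) with h | h
      · rw [h]
        simpa using hT0
      · obtain ⟨q0, hq0⟩ := h
        rw [mem_filter] at hq0
        have h6 := hmem _ hq0.1
        rw [hq0.2] at h6
        refine le_trans ?_ (hT m h6.1 h6.2)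
        have h7 : (P.filter (fun q => q.1 * q.2 = m)).card ≤ m.divisors.card := by
          refine Finset.card_le_card_of_injOn (fun q => q.1) ?_ ?_
          · intro q hq
            have hq' := (mem_filter.1 (Finset.mem_coe.1 hq)).2
            rw [Finset.mem_coe, Nat.mem_divisors]
            exact ⟨⟨q.2, hq'.symm⟩, by omega⟩
          · intro q hq r hr hqr
            have hq' := (mem_filter.1 (Finset.mem_coe.1 hq)).2
            have hr' := (mem_filter.1 (Finset.mem_coe.1 hr)).2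
            have hqr' : q.1 = r.1 := hqr
            have hpos : 0 < q.1 := by
              rcases Nat.eq_zero_or_pos q.1 with h0 | h0
              · rw [h0, Nat.zero_mul] at hq'
                omega
              · exact h0
            refine Prod.ext hqr' ?_
            rw [← hqr'] at hr'
            exact Nat.eq_of_mul_eq_mul_left hpos (hq'.trans hr'.symm)
        exact_mod_cast h7
    have h8 : (0 : ℝ) ≤ ∑ q ∈ P.filter (fun q => q.1 * q.2 = m), B ^ 2 :=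
      Finset.sum_nonneg fun _ _ => sq_nonneg _
    calc ‖a m‖ ^ 2 ≤ ((P.filter (fun q => q.1 * q.2 = m)).card : ℝ) *
          ∑ q ∈ P.filter (fun q => q.1 * q.2 = m), ‖b q.1‖ ^ 2 := h2.trans h3
      _ ≤ T * ∑ q ∈ P.filter (fun q => q.1 * q.2 = m), B ^ 2 :=
          mul_le_mul h5 h4 (Finset.sum_nonneg fun _ _ => sq_nonneg _) hT0
      _ = _ := by rw [Finset.mul_sum]
  have hsum : ∑ m ∈ range N, ‖a m‖ ^ 2 ≤ T * B ^ 2 * H * E.card := by
    refine (Finset.sum_le_sum hcard).trans ?_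
    rw [Finset.sum_fiberwise_of_maps_to hmaps (fun _ => T * B ^ 2), Finset.sum_const, hP,
      Finset.card_product, Nat.card_Icc, nsmul_eq_mul]
    rw [show H + 1 - 1 = H from by omega]
    push_cast
    exact le_of_eq (by ring)
  have hls := large_sieve Z th (1 / (4 * Y)) (by positivity)
    (by rw [div_le_one (by positivity)]; linarith)
    (fun r hr s hs hrs m => th_space hY0 (hZ r hr).1 (hZ s hs).1 (hZ r hr).2.1 (hZ r hr).2.2
      (hZ s hs).2.1 (hZ s hs).2.2 hrs m) N a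
  have hfac : (16 : ℝ) * (N + 1 / (1 / (4 * Y)) + 1) = 16 * (2 * M * H + 4 * Y + 2) := by
    rw [one_div_one_div, hN]
    push_cast
    ring
  rw [hfac] at hls
  calc ∑ z ∈ Z, ‖∑ n ∈ E, ∑ h ∈ Icc 1 H, b h * e (h * n * th z)‖ ^ 2
      = ∑ z ∈ Z, ‖∑ m ∈ range N, a m * e (m * th z)‖ ^ 2 :=
        Finset.sum_congr rfl fun z _ => by rw [key]
    _ ≤ _ := hls
    _ ≤ _ := mul_le_mul_of_nonneg_left hsum (by positivity)

end MPC
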