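import Pool.Agent.MPC.C1
import Pool.Agent.MPC.A3
import Pool.Agent.MPC.B4

/-! # [MPC-C2] few exceptional integers, by the large sieve -/

set_option autoImplicit false

namespace MPC

open Finset Pool.Agent.MP_ffd2b5_nt

private lemma c2_e_add (x y : ℝ) : e x * e y = e (x + y) := by
  unfold e
  rw [← Complex.exp_add]
  congr 1
  push_cast
  ring

private lemma c2_e_norm (x : ℝ) : ‖e x‖ = 1 := by
  unfold e
  have : 2 * (Real.pi : ℂ) * Complex.I * (x : ℂ) = ((2 * Real.pi * x : ℝ) : ℂ) * Complex.I := by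
    push_cast; ring
  rw [this]
  exact Complex.norm_exp_ofReal_mul_I _

private lemma c2_e_re (x : ℝ) : (e x).re = Real.cos (2 * Real.pi * x) := by
  unfold e
  have : 2 * (Real.pi : ℂ) * Complex.I * (x : ℂ) = ((2 * Real.pi * x : ℝ) : ℂ) * Complex.I := by
    push_cast; ring
  rw [this, Complex.exp_ofReal_mul_I_re]

/-- the count -/
private lemma c2_count {Z : Finset (ℕ × ℕ)} {n A g : ℕ} {Y : ℝ} (hY : 0 < Y)
    (hZ : ∀ z ∈ Z, Good z ∧ Y ≤ nm z ∧ (nm z : ℝ) ≤ 129 / 128 * Y ∧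
      (A : ℝ) * ((nm z : ℝ) - Y) ≤ g * Y / 2) {P : ℝ → ℝ}
    (hP1 : ∀ t, P t ≤ 1)
    (hP0 : ∀ t : ℝ, ¬ (0 < Int.fract t ∧ Int.fract t < g / (4 * Y)) → P t ≤ 0) :
    ∑ z ∈ Z, P (n * th z - A / Y) ≤ (cnt Z n A g : ℝ) := by
  classical
  have h1 : ∑ z ∈ Z, P (n * th z - A / Y) ≤
      ∑ z ∈ Z, (if (0 < Int.fract (n * th z - A / Y) ∧
        Int.fract (n * th z - A / Y) < g / (4 * Y)) then (1 : ℝ) else 0) := by
    refine sum_le_sum fun z _ => ?_
    split_ifs with h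
    · exact hP1 _
    · exact hP0 _ h
  refine h1.trans ?_
  rw [← Finset.sum_filter, Finset.sum_const, nsmul_eq_mul, mul_one, Nat.cast_le]
  unfold cnt
  have h2 : ∀ z ∈ Z.filter (fun z => 0 < Int.fract (n * th z - A / Y) ∧
        Int.fract (n * th z - A / Y) < g / (4 * Y)),
      ∃ s ∈ Finset.Ioo A (A + g), nm z ∣ n ^ 2 + s ^ 2 := by
    intro z hz
    rw [mem_filter] at hz
    obtain ⟨hz, h4, h5⟩ := hz
    obtain ⟨g1, g2, g3, g4⟩ := hZ z hz
    exact exists_s g1 hY g2 (by linarith) g4 h4 h5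
  choose! s hs hs' using h2
  refine Finset.card_le_card_of_injOn (fun z => (z, s z)) ?_ ?_
  · intro z hz
    have hz' := hz
    rw [Finset.mem_coe, mem_filter] at hz'
    rw [Finset.mem_coe, mem_filter, mem_product]
    exact ⟨⟨hz'.1, hs z hz⟩, hs' z hz⟩
  · intro z _ z' _ h
    exact (Prod.mk.inj h).1

/-- [MPC-C2] few exceptional integers. -/
theorem exceptional : ∃ C : ℝ, 1 ≤ C ∧ ∀ (M g A : ℕ) (Y T : ℝ) (Z : Finset (ℕ × ℕ)) (E : Finset ℕ),
    1 ≤ g → g ≤ 2 * M → 1 ≤ Y → (g : ℝ) ≤ 2 * Y →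
    (∀ z ∈ Z, Good z ∧ Y ≤ nm z ∧ (nm z : ℝ) ≤ 129 / 128 * Y ∧ (A : ℝ) * ((nm z : ℝ) - Y) ≤ g * Y / 2) →
    (∀ m : ℕ, 1 ≤ m → (m : ℝ) ≤ C * M * Y / g → (m.divisors.card : ℝ) ≤ T) →
    (∀ n ∈ E, 1 ≤ n ∧ n ≤ 2 * M ∧ (cnt Z n A g : ℝ) < g / (C * Y) * Z.card) →
    (Z.card : ℝ) * E.card ≤ C * T * M * Y ^ 2 / g ^ 2 := by
  classical
  obtain ⟨C₁, hC₁, hmin⟩ := minorant
  have hC4 : (1 : ℝ) ≤ C₁ ^ 4 := one_le_pow₀ hC₁
  have hC4' : C₁ ≤ C₁ ^ 4 := by
    calc C₁ = C₁ * 1 := (mul_one _).symm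
      _ ≤ C₁ * C₁ ^ 3 := by
          apply mul_le_mul_of_nonneg_left (one_le_pow₀ hC₁) (by linarith)
      _ = C₁ ^ 4 := by ring
  refine ⟨10 ^ 4 * C₁ ^ 4, by linarith, ?_⟩
  intro M g A Y T Z E hg hgM hY hgY hZ hT hE
  have hM : 1 ≤ M := by omega
  have hM' : (1 : ℝ) ≤ M := by exact_mod_cast hM
  have hg' : (1 : ℝ) ≤ g := by exact_mod_cast hg
  have hg0 : (0 : ℝ) < g := by linarith
  have hY0 : 0 < Y := by linarith
  have hgM' : (g : ℝ) ≤ 2 * M := by exact_mod_cast hgM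
  have hMg : 1 ≤ 2 * (M * Y / g) := by
    rw [← mul_div_assoc, le_div_iff₀ hg0, one_mul]
    nlinarith
  have hT1 : 1 ≤ T := by
    have := hT 1 le_rfl (by
      have h3 : (10 ^ 4 * C₁ ^ 4) * M * Y / g = (10 ^ 4 * C₁ ^ 4) * (M * Y / g) := by ring
      rw [h3]
      push_cast
      nlinarith)
    simpa using this
  -- trivial cases
  rcases Z.eq_empty_or_nonempty with hZe | hZne
  · rw [hZe]
    simp only [card_empty, Nat.cast_zero, zero_mul]
    positivity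
  rcases E.eq_empty_or_nonempty with hEe | hEne
  · rw [hEe]
    simp only [card_empty, Nat.cast_zero, mul_zero]
    positivity
  have hZc : (0 : ℝ) < Z.card := by exact_mod_cast hZne.card_pos
  have hEc : (0 : ℝ) < E.card := by exact_mod_cast hEne.card_pos
  set η : ℝ := g / (4 * Y) with hη
  have hη0 : 0 < η := by positivity
  have hη1 : η ≤ 1 / 2 := by
    rw [hη, div_le_iff₀ (by positivity)]
    linarith
  obtain ⟨H, c0, c, hH1, hH2, hc0, hc, hmin⟩ := hmin η hη0 hη1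
  have hc00 : 0 < c0 := lt_of_lt_of_le (by positivity) hc0
  have hH2' : (H : ℝ) ≤ 4 * C₁ * Y / g := by
    have : C₁ / η = 4 * C₁ * Y / g := by
      rw [hη]; field_simp
    rwa [this] at hH2
  set τ : ℝ := A / Y with hτ
  set b : ℕ → ℂ := fun h => (c h : ℂ) * e (-(h * (τ + η / 2))) with hb
  have hbn : ∀ h, ‖b h‖ ≤ C₁ * c0 := by
    intro h
    rw [hb]
    simp only
    rw [norm_mul, c2_e_norm, mul_one, Complex.norm_real, Real.norm_eq_abs]
    exact hc h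
  set S : ℕ × ℕ → ℂ := fun z => ∑ n ∈ E, ∑ h ∈ Icc 1 H, b h * e (h * n * th z) with hS
  -- lower bound
  have hkey : ∀ n ∈ E, (∑ z ∈ Z, (∑ h ∈ Icc 1 H, b h * e (h * n * th z)).re) ≤
      -(c0 / 2 * Z.card) := by
    intro n hn
    obtain ⟨h1, h2, h3⟩ := hE n hn
    have h4 := c2_count (n := n) hY0 hZ (P := fun t => c0 + ∑ h ∈ Icc 1 H,
      c h * Real.cos (2 * Real.pi * h * (t - η / 2))) (fun t => (hmin t).1)
      (fun t ht => (hmin t).2 ht)
    have h5 : ∀ z, (∑ h ∈ Icc 1 H, b h * e (h * n * th z)).re =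
        ∑ h ∈ Icc 1 H, c h * Real.cos (2 * Real.pi * h * ((n * th z - A / Y) - η / 2)) := by
      intro z
      rw [Complex.re_sum]
      refine sum_congr rfl fun h _ => ?_
      rw [hb]
      simp only
      rw [mul_assoc, c2_e_add, Complex.re_ofReal_mul, c2_e_re]
      congr 2
      rw [hτ]
      ring
    have h6 : (g : ℝ) / (10 ^ 4 * C₁ ^ 4 * Y) ≤ c0 / 2 := by
      have h7 : (g : ℝ) / (10 ^ 4 * C₁ ^ 4 * Y) ≤ η / C₁ / 2 := by
        rw [hη, div_div, div_div]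
        apply div_le_div_of_nonneg_left hg0.le (by positivity)
        nlinarith
      linarith
    have h8 : (g : ℝ) / (10 ^ 4 * C₁ ^ 4 * Y) * Z.card ≤ c0 / 2 * Z.card :=
      mul_le_mul_of_nonneg_right h6 hZc.le
    simp only [sum_add_distrib, sum_const, nsmul_eq_mul] at h4
    simp only [h5]
    nlinarith
  have hlow : c0 / 2 * Z.card * E.card ≤ ∑ z ∈ Z, ‖S z‖ := by
    have h1 : (∑ z ∈ Z, (S z).re) ≤ -(c0 / 2 * Z.card) * E.card := by
      have h2 : (∑ z ∈ Z, (S z).re) =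
          ∑ n ∈ E, ∑ z ∈ Z, (∑ h ∈ Icc 1 H, b h * e (h * n * th z)).re := by
        rw [sum_comm]
        refine sum_congr rfl fun z _ => ?_
        rw [hS]
        simp only
        rw [Complex.re_sum]
      rw [h2]
      calc _ ≤ ∑ n ∈ E, -(c0 / 2 * Z.card) := sum_le_sum hkey
        _ = _ := by rw [sum_const, nsmul_eq_mul]; ring
    have h3 : -(∑ z ∈ Z, (S z).re) ≤ ∑ z ∈ Z, ‖S z‖ := by
      rw [← sum_neg_distrib]
      refine sum_le_sum fun z _ => ?_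
      exact (neg_le_abs _).trans (Complex.abs_re_le_norm _)
    nlinarith
  have hcs : (∑ z ∈ Z, ‖S z‖) ^ 2 ≤ Z.card * ∑ z ∈ Z, ‖S z‖ ^ 2 := by
    have := sq_sum_le_card_mul_sum_sq (s := Z) (f := fun z => ‖S z‖)
    exact this
  have h2MH : (2 : ℝ) * M * H ≤ 8 * C₁ * (M * Y / g) := by
    calc (2 : ℝ) * M * H ≤ 2 * M * (4 * C₁ * Y / g) :=
          mul_le_mul_of_nonneg_left hH2' (by positivity)
      _ = _ := by ring
  have hsd := sieve_double (M := M) (H := H) (Y := Y) (T := T) (B := C₁ * c0) hM hH1 hY Z E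
    (fun z hz => ⟨(hZ z hz).1, (hZ z hz).2.1, (hZ z hz).2.2.1⟩)
    (fun n hn => ⟨(hE n hn).1, (hE n hn).2.1⟩)
    (fun m hm1 hm2 => hT m hm1 (by
      have h1 : (m : ℝ) ≤ 2 * M * H := by exact_mod_cast hm2
      have h3 : (10 ^ 4 * C₁ ^ 4) * M * Y / g = (10 ^ 4 * C₁ ^ 4) * (M * Y / g) := by ring
      rw [h3]
      have h4 : 0 ≤ (M : ℝ) * Y / g := by positivity
      nlinarith)) b hbn
  -- combine
  have h1 : (c0 / 2 * Z.card * E.card) ^ 2 ≤
      Z.card * (16 * (2 * M * H + 4 * Y + 2) * (T * (C₁ * c0) ^ 2 * H * E.card)) := by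
    calc _ ≤ (∑ z ∈ Z, ‖S z‖) ^ 2 := by
          apply pow_le_pow_left₀ (by positivity) hlow
      _ ≤ Z.card * ∑ z ∈ Z, ‖S z‖ ^ 2 := hcs
      _ ≤ _ := mul_le_mul_of_nonneg_left hsd hZc.le
  have h2 : (Z.card : ℝ) * E.card ≤ 64 * (2 * M * H + 4 * Y + 2) * T * C₁ ^ 2 * H := by
    have h3 : 0 < c0 ^ 2 / 4 * (Z.card * E.card) := by positivity
    apply le_of_mul_le_mul_left _ h3
    calc c0 ^ 2 / 4 * (Z.card * E.card) * (Z.card * E.card) =
        (c0 / 2 * Z.card * E.card) ^ 2 := by ring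
      _ ≤ _ := h1
      _ = _ := by ring
  have hx : 0 < (M : ℝ) * Y / g := by positivity
  have h4 : (2 : ℝ) * M * H + 4 * Y + 2 ≤ 20 * C₁ * (M * Y / g) := by
    have h5 : Y ≤ 2 * (M * Y / g) := by
      rw [← mul_div_assoc, le_div_iff₀ hg0]
      nlinarith
    nlinarith
  have h6 : (0 : ℝ) ≤ 2 * M * H + 4 * Y + 2 := by positivity
  calc (Z.card : ℝ) * E.card ≤ 64 * (2 * M * H + 4 * Y + 2) * T * C₁ ^ 2 * H := h2
    _ ≤ 64 * (20 * C₁ * (M * Y / g)) * T * C₁ ^ 2 * (4 * C₁ * Y / g) := by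
        gcongr
    _ = 5120 * (C₁ ^ 4 * T * M * Y ^ 2 / g ^ 2) := by
        field_simp
        ring
    _ ≤ 10 ^ 4 * (C₁ ^ 4 * T * M * Y ^ 2 / g ^ 2) := by
        apply mul_le_mul_of_nonneg_right (by norm_num)
        positivity
    _ = _ := by ring

end MPC
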