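import Pool.Agent.MPC.A1
import Pool.Agent.GCN.H4

/-! # [MPC-D1] Mertens modulo `4` -/

set_option autoImplicit false

namespace MPC

open Finset

/-- [MPC-D1] PROOF. `[n = 1 mod 4] = (1/2) ∑_χ χ n` over the two characters modulo `4` (`DirichletCharacter.sum_char_inv_mul_char_eq` with `a = 1`, as in the proof of
`GCN.mertens_ap` in `Pool/Agent/GCN/H4.lean`: copy that proof with `1` in place of `-1`); nonprincipal character `GCN.sum_char_vonMangoldt`, principal one `GCN.h4_mertens` and the lemmas there. -/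
theorem mertens_four : ∃ C : ℝ, ∀ N : ℕ, 1 ≤ N →
    |(∑ n ∈ Icc 1 N, if n % 4 = 1 then ArithmeticFunction.vonMangoldt n / (n : ℝ) else 0) -
      Real.log N / 2| ≤ C := by
  classical
  have hC : ∀ χ : DirichletCharacter ℂ 4, ∃ C : ℝ, χ ≠ 1 → ∀ N : ℕ, ‖∑ n ∈ Icc 1 N,
      χ (n : ZMod 4) * ((ArithmeticFunction.vonMangoldt n / n : ℝ) : ℂ)‖ ≤ C := by
    intro χ
    by_cases hχ : χ = 1
    · exact ⟨0, fun h => absurd hχ h⟩
    · obtain ⟨C, hC⟩ := GCN.sum_char_vonMangoldt 4 χ hχ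
      exact ⟨C, fun _ => hC⟩
  choose C hC using hC
  have hone : ∀ n : ℕ, ((1 : ZMod 4) = (n : ZMod 4)) ↔ n % 4 = 1 := by
    intro n
    have h := ZMod.natCast_eq_natCast_iff' 1 n 4
    rw [Nat.cast_one] at h
    rw [h]
    constructor
    · intro h'
      omega
    · intro h'
      omega
  have htot : Nat.totient 4 = 2 := by decide
  set D : ℝ := (∑ χ ∈ (univ : Finset (DirichletCharacter ℂ 4)).erase 1, C χ) +
    ((Real.log 4 + 4) + ∑ p ∈ Nat.primeFactors 4, Real.log p) with hD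
  refine ⟨|D|, fun N hN => ?_⟩
  have ha : IsUnit (1 : ZMod 4) := isUnit_one
  have ha' : IsUnit ((1 : ZMod 4)⁻¹) := by
    rw [ZMod.inv_one]
    exact ha
  set S : ℝ := ∑ n ∈ Icc 1 N, if n % 4 = 1 then ArithmeticFunction.vonMangoldt n / (n : ℝ) else 0
    with hS
  have h1 : ((2 * S : ℝ) : ℂ) = ∑ χ : DirichletCharacter ℂ 4, χ (1 : ZMod 4)⁻¹ *
      ∑ n ∈ Icc 1 N, χ (n : ZMod 4) * ((ArithmeticFunction.vonMangoldt n / n : ℝ) : ℂ) := by
    simp_rw [Finset.mul_sum]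
    rw [Finset.sum_comm, hS, Finset.mul_sum, Complex.ofReal_sum]
    apply Finset.sum_congr rfl
    intro n hn
    have h2 : ∑ χ : DirichletCharacter ℂ 4, χ (1 : ZMod 4)⁻¹ *
        (χ (n : ZMod 4) * ((ArithmeticFunction.vonMangoldt n / n : ℝ) : ℂ)) =
        (∑ χ : DirichletCharacter ℂ 4, χ (1 : ZMod 4)⁻¹ * χ (n : ZMod 4)) *
          ((ArithmeticFunction.vonMangoldt n / n : ℝ) : ℂ) := by
      rw [Finset.sum_mul]
      exact Finset.sum_congr rfl fun χ _ => by ring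
    rw [h2, DirichletCharacter.sum_char_inv_mul_char_eq ℂ ha, htot]
    by_cases h : n % 4 = 1
    · rw [if_pos h, if_pos ((hone n).2 h)]
      push_cast
      ring
    · rw [if_neg h, if_neg (fun h' => h ((hone n).1 h'))]
      simp
  have h3 : (1 : DirichletCharacter ℂ 4) (1 : ZMod 4)⁻¹ *
      ∑ n ∈ Icc 1 N, (1 : DirichletCharacter ℂ 4) (n : ZMod 4) *
        ((ArithmeticFunction.vonMangoldt n / n : ℝ) : ℂ) =
      ((∑ n ∈ (Icc 1 N).filter (fun n => Nat.Coprime n 4),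
        ArithmeticFunction.vonMangoldt n / (n : ℝ) : ℝ) : ℂ) := by
    rw [MulChar.one_apply ha', one_mul, Finset.sum_filter, Complex.ofReal_sum]
    apply Finset.sum_congr rfl
    intro n hn
    by_cases h : Nat.Coprime n 4
    · rw [if_pos h, MulChar.one_apply ((ZMod.isUnit_iff_coprime n 4).2 h), one_mul]
    · rw [if_neg h, MulChar.map_nonunit _ (fun h' => h ((ZMod.isUnit_iff_coprime n 4).1 h'))]
      simp
  have h4 : ((2 * S - (∑ n ∈ (Icc 1 N).filter (fun n => Nat.Coprime n 4),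
        ArithmeticFunction.vonMangoldt n / (n : ℝ)) : ℝ) : ℂ) =
      ∑ χ ∈ (univ : Finset (DirichletCharacter ℂ 4)).erase 1, χ (1 : ZMod 4)⁻¹ *
        ∑ n ∈ Icc 1 N, χ (n : ZMod 4) * ((ArithmeticFunction.vonMangoldt n / n : ℝ) : ℂ) := by
    rw [Complex.ofReal_sub, h1, ← Finset.add_sum_erase univ _ (Finset.mem_univ 1), h3]
    ring
  have h5 : |2 * S - (∑ n ∈ (Icc 1 N).filter (fun n => Nat.Coprime n 4),
        ArithmeticFunction.vonMangoldt n / (n : ℝ))| ≤
      ∑ χ ∈ (univ : Finset (DirichletCharacter ℂ 4)).erase 1, C χ := by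
    rw [← Real.norm_eq_abs, ← Complex.norm_real, h4]
    refine (norm_sum_le _ _).trans (Finset.sum_le_sum fun χ hχ => ?_)
    rw [norm_mul]
    have h6 : ‖χ (1 : ZMod 4)⁻¹‖ ≤ 1 := DirichletCharacter.norm_le_one χ _
    have h7 := hC χ (Finset.ne_of_mem_erase hχ) N
    calc _ ≤ 1 * ‖∑ n ∈ Icc 1 N, χ (n : ZMod 4) *
          ((ArithmeticFunction.vonMangoldt n / n : ℝ) : ℂ)‖ :=
          mul_le_mul_of_nonneg_right h6 (norm_nonneg _)
      _ ≤ C χ := by rw [one_mul]; exact h7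
  have h6 := GCN.h4_coprime 4 (by norm_num) N hN
  have h7 : |2 * S - Real.log N| ≤ D := by
    rw [abs_le] at h5 h6 ⊢
    rw [hD]
    constructor <;> linarith [h5.1, h5.2, h6.1, h6.2]
  have h8 : S - Real.log N / 2 = (2 * S - Real.log N) / 2 := by ring
  rw [h8, abs_div, abs_of_pos (by norm_num : (0 : ℝ) < 2)]
  have h9 : |2 * S - Real.log N| / (2 : ℝ) ≤ |2 * S - Real.log N| :=
    div_le_self (abs_nonneg _) (by norm_num)
  exact h9.trans (h7.trans (le_abs_self D))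

end MPC
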