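import Pool.Agent.MPC.D1

/-! # [MPC-D2] Mertens for primes which are `1` modulo `4` -/

set_option autoImplicit false

namespace MPC

open Finset

/-- the proper prime powers contribute at most `log 4 + 7` -/
theorem d2_powers (N : ℕ) (hN : 1 ≤ N) :
    ∑ n ∈ (Icc 1 N).filter (fun n => ¬ n.Prime), ArithmeticFunction.vonMangoldt n / (n : ℝ) ≤
      Real.log 4 + 7 := by
  have h1 := (abs_le.1 (GCN.h4_mertens N hN)).2
  have h2 := (Pool.Agent.Lib.helper94.ANT.mA_bounds hN).1
  have h3 := Finset.sum_filter_add_sum_filter_not (Icc 1 N) (fun n => n.Prime)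
    (fun n => ArithmeticFunction.vonMangoldt n / (n : ℝ))
  have h4 : ∑ n ∈ (Icc 1 N).filter (fun n => n.Prime), ArithmeticFunction.vonMangoldt n / (n : ℝ) =
      Pool.Agent.Lib.helper94.ANT.mA N := by
    unfold Pool.Agent.Lib.helper94.ANT.mA
    have h5 : (Icc 1 N).filter (fun n => n.Prime) = Nat.primesLE N := by
      ext p
      rw [mem_filter, mem_Icc, Nat.mem_primesLE]
      constructor
      · rintro ⟨⟨_, h⟩, hp⟩
        exact ⟨h, hp⟩
      · rintro ⟨h, hp⟩
        exact ⟨⟨hp.one_le, h⟩, hp⟩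
    rw [h5]
    refine Finset.sum_congr rfl fun p hp => ?_
    rw [ArithmeticFunction.vonMangoldt_apply_prime (Nat.prime_of_mem_primesLE hp)]
  linarith

/-- [MPC-D2] PROOF. From `mertens_four`: the prime powers `p ^ k`, `k ≥ 2`, contribute at most `∑_n log n / (n (n - 1)) < ∞` (see how `h4_mertens` or `mertens_ap` treat them, or
`Pool/Agent/Lib/helper94/ANT/Mertens.lean`, `aux_sum_primes`). -/
theorem mertens_primes : ∃ C : ℝ, 0 ≤ C ∧ ∀ N : ℕ, 1 ≤ N →
    |(∑ p ∈ (Icc 1 N).filter (fun p => p.Prime ∧ p % 4 = 1), Real.log p / (p : ℝ)) - Real.log N / 2| ≤ C := by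
  obtain ⟨C, hC⟩ := mertens_four
  have hlog4 : 0 ≤ Real.log 4 := Real.log_nonneg (by norm_num)
  refine ⟨|C| + (Real.log 4 + 7), by positivity, fun N hN => ?_⟩
  have h1 := hC N hN
  rw [← Finset.sum_filter] at h1
  have h2 := Finset.sum_filter_add_sum_filter_not ((Icc 1 N).filter (fun n => n % 4 = 1))
    (fun n => n.Prime) (fun n => ArithmeticFunction.vonMangoldt n / (n : ℝ))
  have h3 : ∑ n ∈ ((Icc 1 N).filter (fun n => n % 4 = 1)).filter (fun n => n.Prime),
      ArithmeticFunction.vonMangoldt n / (n : ℝ) =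
      ∑ p ∈ (Icc 1 N).filter (fun p => p.Prime ∧ p % 4 = 1), Real.log p / (p : ℝ) := by
    rw [Finset.filter_filter]
    have h5 : (Icc 1 N).filter (fun a => a % 4 = 1 ∧ a.Prime) =
        (Icc 1 N).filter (fun p => p.Prime ∧ p % 4 = 1) :=
      Finset.filter_congr fun a _ => and_comm
    rw [h5]
    refine Finset.sum_congr rfl fun p hp => ?_
    rw [mem_filter] at hp
    rw [ArithmeticFunction.vonMangoldt_apply_prime hp.2.1]
  have h4 : ∑ n ∈ ((Icc 1 N).filter (fun n => n % 4 = 1)).filter (fun n => ¬ n.Prime),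
      ArithmeticFunction.vonMangoldt n / (n : ℝ) ≤
      ∑ n ∈ (Icc 1 N).filter (fun n => ¬ n.Prime), ArithmeticFunction.vonMangoldt n / (n : ℝ) := by
    refine Finset.sum_le_sum_of_subset_of_nonneg ?_ ?_
    · intro n hn
      rw [mem_filter, mem_filter] at hn
      rw [mem_filter]
      exact ⟨hn.1.1, hn.2⟩
    · intro n _ _
      exact div_nonneg ArithmeticFunction.vonMangoldt_nonneg (Nat.cast_nonneg n)
  have h5 : 0 ≤ ∑ n ∈ ((Icc 1 N).filter (fun n => n % 4 = 1)).filter (fun n => ¬ n.Prime),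
      ArithmeticFunction.vonMangoldt n / (n : ℝ) :=
    Finset.sum_nonneg fun n _ =>
      div_nonneg ArithmeticFunction.vonMangoldt_nonneg (Nat.cast_nonneg n)
  have h6 := d2_powers N hN
  have h7 := le_abs_self C
  rw [← h2, h3] at h1
  rw [abs_le] at h1 ⊢
  constructor <;> linarith [h1.1, h1.2]

end MPC
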