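import Pool.Agent.MPC.D2

/-! # [MPC-D3] reciprocals of the primes which are `1` modulo `4` -/

set_option autoImplicit false

namespace MPC

open Finset

/-- [MPC-D3] PROOF. `z ↦ nm z` is injective on `PB a b` (`uniq`) with image the primes `p ∈ [a, b)`, `p % 4 = 1` (`Nat.Prime.sq_add_sq`: `p = x² + y²`, `x ≠ y`, `x, y ≠ 0`; `nm z` odd or `2`,
`2 = 1 + 1` has no `y < x`, so `nm z % 4 = 1`). With `b = a ^ (1 + κ)`: `1 / p ≥ (log p / p) / ((1 + κ) log a)` for `p < b`, and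
`∑_{a ≤ p < b} log p / p ≥ (log ⌊b⌋₊ - log ⌈a⌉₊) / 2 - 2 C - 1 ≥ κ log a / 2 - 2 C - 2` (difference of `mertens_primes` for `N = ⌈b⌉₊ - 1`, `N' = ⌈a⌉₊ - 1` or similar, `a ≥ 3`).
So the sum is `≥ (κ / 2 - (2 C + 2) / log a) / 2 ≥ κ / 8` when `log a ≥ 8 (2 C + 2) / κ`. `c = 1 / 8`. -/
theorem sum_PB : ∃ c : ℝ, 0 < c ∧ ∀ κ : ℝ, 0 < κ → κ ≤ 1 → ∃ X0 : ℝ, 3 ≤ X0 ∧ ∀ U : ℝ, X0 ≤ U →
    c * κ ≤ ∑ z ∈ PB U (U ^ (1 + κ)), 1 / (nm z : ℝ) := by
  classical
  obtain ⟨C, hC0, hC⟩ := mertens_primes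
  refine ⟨1 / 8, by norm_num, fun κ hκ hκ1 =>
    ⟨max 3 (Real.exp (8 * (2 * C + 2) / κ)), le_max_left _ _, fun U hU => ?_⟩⟩
  have hU3 : (3 : ℝ) ≤ U := (le_max_left _ _).trans hU
  have hUe : Real.exp (8 * (2 * C + 2) / κ) ≤ U := (le_max_right _ _).trans hU
  have hU0 : 0 < U := by linarith
  have hlog : 8 * (2 * C + 2) / κ ≤ Real.log U := by
    rw [← Real.log_exp (8 * (2 * C + 2) / κ)]
    exact Real.log_le_log (Real.exp_pos _) hUe
  have hlog' : 8 * (2 * C + 2) ≤ κ * Real.log U := by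
    rw [div_le_iff₀ hκ] at hlog
    linarith
  have hlogpos : 0 < Real.log U := Real.log_pos (by linarith)
  set b := U ^ (1 + κ) with hb
  have hbU : U ≤ b := by
    rw [hb]
    calc U = U ^ (1 : ℝ) := (Real.rpow_one U).symm
      _ ≤ _ := Real.rpow_le_rpow_of_exponent_le (by linarith) (by linarith)
  have hb3 : 3 ≤ b := hU3.trans hbU
  have hlogb : Real.log b = (1 + κ) * Real.log U := Real.log_rpow hU0 _
  obtain ⟨N', hN'⟩ : ∃ N', N' + 1 = ⌈U⌉₊ := ⟨⌈U⌉₊ - 1, by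
    have h1 := Nat.le_ceil U
    have h2 : (3 : ℝ) ≤ (⌈U⌉₊ : ℝ) := hU3.trans h1
    have h3 : 3 ≤ ⌈U⌉₊ := by exact_mod_cast h2
    omega⟩
  obtain ⟨N, hN⟩ : ∃ N, N + 1 = ⌈b⌉₊ := ⟨⌈b⌉₊ - 1, by
    have h1 := Nat.le_ceil b
    have h2 : (3 : ℝ) ≤ (⌈b⌉₊ : ℝ) := hb3.trans h1
    have h3 : 3 ≤ ⌈b⌉₊ := by exact_mod_cast h2
    omega⟩
  have hN'2 : (2 : ℝ) ≤ (N' : ℝ) := by
    have h1 := Nat.le_ceil U
    rw [← hN'] at h1
    push_cast at h1
    linarith
  have hNge : b - 1 ≤ (N : ℝ) := by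
    have h1 := Nat.le_ceil b
    rw [← hN] at h1
    push_cast at h1
    linarith
  have hN'lt : (N' : ℝ) < U := Nat.lt_ceil.1 (by omega)
  have hNN : N' ≤ N := by
    have h1 : ⌈U⌉₊ ≤ ⌈b⌉₊ := Nat.ceil_mono hbU
    omega
  have hN'1 : 1 ≤ N' := by
    have h1 : (1 : ℝ) ≤ (N' : ℝ) := by linarith
    exact_mod_cast h1
  -- the sum of `log p / p`
  have hM1 := hC N (hN'1.trans hNN)
  have hM2 := hC N' hN'1
  have hsplit : ∑ p ∈ (Icc 1 N).filter (fun p => p.Prime ∧ p % 4 = 1), Real.log p / (p : ℝ) =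
      ∑ p ∈ (Icc 1 N').filter (fun p => p.Prime ∧ p % 4 = 1), Real.log p / (p : ℝ) +
      ∑ p ∈ (Ioc N' N).filter (fun p => p.Prime ∧ p % 4 = 1), Real.log p / (p : ℝ) := by
    rw [← sum_union]
    · congr 1
      rw [← filter_union]
      congr 1
      ext n
      simp only [mem_union, mem_Icc, mem_Ioc]
      omega
    · refine disjoint_filter_filter ?_
      rw [Finset.disjoint_left]
      intro n hn hn'
      rw [mem_Icc] at hn
      rw [mem_Ioc] at hn'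
      omega
  have hlogN : (1 + κ) * Real.log U - 1 ≤ Real.log N := by
    have h1 : Real.log (b / 2) ≤ Real.log N :=
      Real.log_le_log (by linarith) (by linarith)
    rw [Real.log_div (by linarith) (by norm_num), hlogb] at h1
    have h2 : Real.log 2 ≤ 1 := by
      have := Real.log_two_lt_d9
      linarith
    linarith
  have hlogN' : Real.log N' ≤ Real.log U := Real.log_le_log (by linarith) hN'lt.le
  have hS : κ * Real.log U / 2 - 1 / 2 - 2 * C ≤
      ∑ p ∈ (Ioc N' N).filter (fun p => p.Prime ∧ p % 4 = 1), Real.log p / (p : ℝ) := by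
    have h1 := (abs_le.1 hM1).1
    have h2 := (abs_le.1 hM2).2
    rw [hsplit] at h1
    nlinarith
  -- the points
  have hz : ∀ p ∈ (Ioc N' N).filter (fun p => p.Prime ∧ p % 4 = 1),
      ∃ z ∈ PB U b, nm z = p := by
    intro p hp
    rw [mem_filter, mem_Ioc] at hp
    obtain ⟨⟨hp1, hp2⟩, hpp, hp4⟩ := hp
    have : Fact p.Prime := ⟨hpp⟩
    obtain ⟨x, y, hxy⟩ := Nat.Prime.sq_add_sq (p := p) (by omega)
    have hpU : U ≤ (p : ℝ) := by
      have h1 : ⌈U⌉₊ ≤ p := by omega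
      exact Nat.ceil_le.1 h1
    have hpb : (p : ℝ) < b := by
      have h1 : p < ⌈b⌉₊ := by omega
      exact Nat.lt_ceil.1 h1
    have hx0 : x ≠ 0 := by
      rintro rfl
      have h1 : y ^ 2 = p := by rw [← hxy]; ring
      rw [← h1] at hpp
      exact (Nat.Prime.not_prime_pow (le_refl 2)) hpp
    have hy0 : y ≠ 0 := by
      rintro rfl
      have h1 : x ^ 2 = p := by rw [← hxy]; ring
      rw [← h1] at hpp
      exact (Nat.Prime.not_prime_pow (le_refl 2)) hpp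
    have hne : x ≠ y := by
      rintro rfl
      have h1 : p = 2 * x ^ 2 := by rw [← hxy]; ring
      omega
    rcases lt_or_gt_of_ne hne with h | h
    · refine ⟨(y, x), ?_, ?_⟩
      · rw [mem_PB]
        have h1 : nm (y, x) = p := by
          unfold nm
          rw [← hxy]
          ring
        rw [h1]
        exact ⟨Nat.pos_of_ne_zero hx0, h, hpp, hpU, hpb⟩
      · unfold nm
        rw [← hxy]
        ring
    · refine ⟨(x, y), ?_, ?_⟩
      · rw [mem_PB]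
        have h1 : nm (x, y) = p := by
          unfold nm
          exact hxy
        rw [h1]
        exact ⟨Nat.pos_of_ne_zero hy0, h, hpp, hpU, hpb⟩
      · unfold nm
        exact hxy
  choose! g hg1 hg2 using hz
  have hinj : ∀ p ∈ (Ioc N' N).filter (fun p => p.Prime ∧ p % 4 = 1),
      ∀ q ∈ (Ioc N' N).filter (fun p => p.Prime ∧ p % 4 = 1), g p = g q → p = q := by
    intro p hp q hq h
    rw [← hg2 p hp, ← hg2 q hq, h]
  have h1 : ∑ p ∈ (Ioc N' N).filter (fun p => p.Prime ∧ p % 4 = 1), 1 / (p : ℝ) ≤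
      ∑ z ∈ PB U b, 1 / (nm z : ℝ) := by
    have h2 : ∑ p ∈ (Ioc N' N).filter (fun p => p.Prime ∧ p % 4 = 1), 1 / (p : ℝ) =
        ∑ z ∈ ((Ioc N' N).filter (fun p => p.Prime ∧ p % 4 = 1)).image g, 1 / (nm z : ℝ) := by
      rw [sum_image hinj]
      refine sum_congr rfl fun p hp => ?_
      rw [hg2 p hp]
    rw [h2]
    refine sum_le_sum_of_subset_of_nonneg ?_ fun z _ _ => by positivity
    intro z hz
    rw [mem_image] at hz
    obtain ⟨p, hp, rfl⟩ := hz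
    exact hg1 p hp
  refine le_trans ?_ h1
  have h3 : ∀ p ∈ (Ioc N' N).filter (fun p => p.Prime ∧ p % 4 = 1),
      Real.log p / (p : ℝ) * (1 / ((1 + κ) * Real.log U)) ≤ 1 / (p : ℝ) := by
    intro p hp
    rw [mem_filter, mem_Ioc] at hp
    obtain ⟨⟨hp1, hp2⟩, hpp, hp4⟩ := hp
    have hp0 : (0 : ℝ) < (p : ℝ) := by exact_mod_cast hpp.pos
    have hpb : (p : ℝ) < b := by
      have h1 : p < ⌈b⌉₊ := by omega
      exact Nat.lt_ceil.1 h1
    have h4 : Real.log p ≤ (1 + κ) * Real.log U := by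
      rw [← hlogb]
      exact Real.log_le_log hp0 hpb.le
    have h5 : 0 < (1 + κ) * Real.log U := by positivity
    rw [div_mul_div_comm, mul_one, div_le_div_iff₀ (by positivity) hp0, one_mul]
    nlinarith
  have h6 := sum_le_sum h3
  rw [← sum_mul] at h6
  refine le_trans ?_ h6
  have h7 : 0 < (1 + κ) * Real.log U := by positivity
  rw [mul_one_div, le_div_iff₀ h7]
  refine le_trans ?_ hS
  nlinarith [mul_pos hκ hlogpos, mul_le_mul_of_nonneg_right hκ1 (mul_pos hκ hlogpos).le]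

end MPC
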