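import Mathlib
import Pool.Agent.MP_ffd2b5_nt.LF
import Pool.Agent.Lib.helper69.DivisorBound

/-!
# [MPC] large prime factors of `n ^ 2 + s ^ 2`: definitions

A pair `z = (x, y)` with `0 < y < x` and `x ^ 2 + y ^ 2` prime stands for the Gaussian prime `x + i y`.
-/

set_option autoImplicit false

namespace MPC

open Finset

/-- the norm `x ^ 2 + y ^ 2` -/
def nm (z : ℕ × ℕ) : ℕ := z.1 ^ 2 + z.2 ^ 2

/-- `0 < y < x` and `x`, `y` coprime -/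
def Good (z : ℕ × ℕ) : Prop := 0 < z.2 ∧ z.2 < z.1 ∧ Nat.Coprime z.1 z.2

/-- the residue `y / x` modulo `x ^ 2 + y ^ 2`, a square root of `-1` -/
noncomputable def rt (z : ℕ × ℕ) : ℕ := ((z.2 : ZMod (nm z)) * (z.1 : ZMod (nm z))⁻¹).val

/-- the point `rt z / nm z` -/
noncomputable def th (z : ℕ × ℕ) : ℝ := (rt z : ℝ) / (nm z : ℝ)

/-- the number of pairs `(z, s)`, `z ∈ Z`, `A < s < A + g`, with `nm z ∣ n ^ 2 + s ^ 2` -/
def cnt (Z : Finset (ℕ × ℕ)) (n A g : ℕ) : ℕ :=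
  ((Z ×ˢ Ioo A (A + g)).filter (fun q => nm q.1 ∣ n ^ 2 + q.2 ^ 2)).card

/-- the pairs `(x, y)` with `0 < y < x ≤ m` and `x ^ 2 + y ^ 2` prime, norm in `[a, b)` -/
noncomputable def PB (a b : ℝ) : Finset (ℕ × ℕ) :=
  open Classical in
  ((range (⌊b⌋₊ + 1)) ×ˢ (range (⌊b⌋₊ + 1))).filter
    (fun z => 0 < z.2 ∧ z.2 < z.1 ∧ (nm z).Prime ∧ a ≤ (nm z : ℝ) ∧ (nm z : ℝ) < b)

theorem nm_pos {z : ℕ × ℕ} (h : Good z) : 0 < nm z := by
  unfold nm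
  have := h.1
  positivity

theorem mem_PB {a b : ℝ} {z : ℕ × ℕ} :
    z ∈ PB a b ↔ 0 < z.2 ∧ z.2 < z.1 ∧ (nm z).Prime ∧ a ≤ (nm z : ℝ) ∧ (nm z : ℝ) < b := by
  classical
  unfold PB
  rw [mem_filter]
  constructor
  · rintro ⟨-, h⟩
    exact h
  · intro h
    refine ⟨?_, h⟩
    have h1 : z.1 ≤ nm z := by unfold nm; nlinarith [Nat.zero_le z.1, Nat.zero_le (z.2 ^ 2), Nat.le_self_pow (two_ne_zero) z.1]
    have h2 : nm z ≤ ⌊b⌋₊ := Nat.le_floor h.2.2.2.2.le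
    rw [mem_product, mem_range, mem_range]
    have := h.2.1
    omega

theorem good_of_PB {a b : ℝ} {z : ℕ × ℕ} (h : z ∈ PB a b) : Good z := by
  rw [mem_PB] at h
  refine ⟨h.1, h.2.1, ?_⟩
  by_contra hc
  obtain ⟨p, hp, h1, h2⟩ := Nat.Prime.not_coprime_iff_dvd.1 hc
  have h3 : p ∣ nm z := by
    unfold nm
    exact dvd_add (dvd_pow h1 two_ne_zero) (dvd_pow h2 two_ne_zero)
  have h4 : p = nm z := (Nat.prime_dvd_prime_iff_eq hp h.2.2.1).1 h3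
  have h5 : p ≤ z.2 := Nat.le_of_dvd h.1 h2
  have h6 : z.2 < nm z := by
    unfold nm
    have := h.2.1
    nlinarith [h.1]
  omega

end MPC
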