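import Pool.Agent.MPC.A1

/-! # [MPC-E1] counting the integers `s` -/

set_option autoImplicit false

namespace MPC

open Finset

/-- the integers `s ∈ (A, B)` for which `n ^ 2 + s ^ 2` has a prime factor at least `U` -/
noncomputable def SS (U : ℝ) (n A B : ℕ) : Finset ℕ :=
  open Classical in
  (Ioo A B).filter (fun s => ∃ p : ℕ, p.Prime ∧ U ≤ p ∧ p ∣ n ^ 2 + s ^ 2)

theorem mem_SS {U : ℝ} {n A B s : ℕ} :
    s ∈ SS U n A B ↔ (A < s ∧ s < B) ∧ ∃ p : ℕ, p.Prime ∧ U ≤ p ∧ p ∣ n ^ 2 + s ^ 2 := by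
  classical
  unfold SS
  rw [mem_filter, mem_Ioo]

theorem cnt_le {M n A g : ℕ} {U : ℝ} (hM : 1 ≤ M) (hn : n ≤ 2 * M) (hU : 4 * (M : ℝ) ≤ U)
    (hA : A + g ≤ n) (Z : Finset (ℕ × ℕ))
    (hZ : ∀ z ∈ Z, 0 < z.2 ∧ z.2 < z.1 ∧ (nm z).Prime ∧ U ≤ (nm z : ℝ)) :
    cnt Z n A g ≤ (SS U n A (A + g)).card := by
  classical
  unfold cnt
  apply Finset.card_le_card_of_injOn (fun q => q.2)
  · intro q hq
    have hq' := Finset.mem_filter.1 hq
    have h1 := Finset.mem_product.1 hq'.1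
    have h2 := mem_Ioo.1 h1.2
    have h3 := hZ q.1 h1.1
    show q.2 ∈ SS U n A (A + g)
    rw [mem_SS]
    exact ⟨h2, nm q.1, h3.2.2.1, h3.2.2.2, hq'.2⟩
  · intro q hq r hr hqr
    have hq' := Finset.mem_filter.1 hq
    have hr' := Finset.mem_filter.1 hr
    have q1 := Finset.mem_product.1 hq'.1
    have r1 := Finset.mem_product.1 hr'.1
    have q2 := hZ q.1 q1.1
    have r2 := hZ r.1 r1.1
    have hqr' : q.2 = r.2 := hqr
    have key : nm q.1 = nm r.1 := by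
      by_contra hne
      have hcop : Nat.Coprime (nm q.1) (nm r.1) := (Nat.coprime_primes q2.2.2.1 r2.2.2.1).2 hne
      have hd : nm q.1 * nm r.1 ∣ n ^ 2 + q.2 ^ 2 := by
        apply Nat.Coprime.mul_dvd_of_dvd_of_dvd hcop hq'.2
        rw [hqr']
        exact hr'.2
      have hs : q.2 < n := by
        have := (mem_Ioo.1 q1.2).2
        omega
      have hn0 : 0 < n := by omega
      have hle := Nat.le_of_dvd (by positivity) hd
      have h4 : ((nm q.1 * nm r.1 : ℕ) : ℝ) ≤ ((n ^ 2 + q.2 ^ 2 : ℕ) : ℝ) := by exact_mod_cast hle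
      push_cast at h4
      have h5 : (q.2 : ℝ) < n := by exact_mod_cast hs
      have h6 : (n : ℝ) ≤ 2 * M := by exact_mod_cast hn
      have hM1 : (1 : ℝ) ≤ M := by exact_mod_cast hM
      have h7 : (4 * (M : ℝ)) * (4 * M) ≤ (nm q.1 : ℝ) * nm r.1 := by
        apply mul_le_mul (hU.trans q2.2.2.2) (hU.trans r2.2.2.2) (by positivity)
        positivity
      have h8 : (0 : ℝ) ≤ q.2 := Nat.cast_nonneg _
      nlinarith
    have h1 := uniq q2.2.2.1 key q2.1 q2.2.1 r2.1 r2.2.1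
    exact Prod.ext h1 hqr'

theorem cnt_biUnion {ι : Type*} [DecidableEq ι] (J : Finset ι) (Zs : ι → Finset (ℕ × ℕ))
    (hd : ∀ i ∈ J, ∀ j ∈ J, i ≠ j → Disjoint (Zs i) (Zs j)) (n A g : ℕ) :
    ∑ j ∈ J, cnt (Zs j) n A g = cnt (J.biUnion Zs) n A g := by
  classical
  unfold cnt
  have h1 : ((J.biUnion Zs) ×ˢ Ioo A (A + g)).filter (fun q => nm q.1 ∣ n ^ 2 + q.2 ^ 2) =
      J.biUnion (fun j => ((Zs j) ×ˢ Ioo A (A + g)).filter (fun q => nm q.1 ∣ n ^ 2 + q.2 ^ 2)) := by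
    ext q
    simp only [mem_filter, mem_product, mem_biUnion]
    constructor
    · rintro ⟨⟨⟨j, hj, h1⟩, h2⟩, h3⟩
      exact ⟨j, hj, ⟨h1, h2⟩, h3⟩
    · rintro ⟨j, hj, ⟨h1, h2⟩, h3⟩
      exact ⟨⟨⟨j, hj, h1⟩, h2⟩, h3⟩
  rw [h1, card_biUnion]
  intro i hi j hj hij
  rw [Function.onFun, Finset.disjoint_left]
  intro q hq hq'
  have h2 := (mem_product.1 (mem_filter.1 hq).1).1
  have h3 := (mem_product.1 (mem_filter.1 hq').1).1
  exact Finset.disjoint_left.1 (hd i hi j hj hij) h2 h3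

theorem cnt_mono {Z W : Finset (ℕ × ℕ)} (h : Z ⊆ W) (n A g : ℕ) : cnt Z n A g ≤ cnt W n A g := by
  unfold cnt
  apply Finset.card_le_card
  apply Finset.filter_subset_filter
  exact Finset.product_subset_product h (Finset.Subset.refl _)

end MPC
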