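import Pool.Agent.MPC.Defs

/-! # [MPC-E2] blocks of primes -/

set_option autoImplicit false

namespace MPC

open Finset

/-- the `j`-th block -/
noncomputable def blk (U q : ℝ) (j : ℕ) : Finset (ℕ × ℕ) := PB (U * q ^ j) (U * q ^ (j + 1))

theorem blk_disjoint {U q : ℝ} (hU : 0 < U) (hq : 1 < q) {i j : ℕ} (hij : i ≠ j) :
    Disjoint (blk U q i) (blk U q j) := by
  rw [Finset.disjoint_left]
  intro z hz hz'
  unfold blk at hz hz'
  rw [mem_PB] at hz hz'
  obtain ⟨-, -, -, h1, h2⟩ := hz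
  obtain ⟨-, -, -, h3, h4⟩ := hz'
  have h5 : q ^ i < q ^ (j + 1) := by
    have := h1.trans_lt h4
    exact lt_of_mul_lt_mul_left this hU.le
  have h6 : q ^ j < q ^ (i + 1) := by
    have := h3.trans_lt h2
    exact lt_of_mul_lt_mul_left this hU.le
  have h7 : i < j + 1 := (pow_lt_pow_iff_right₀ hq).1 h5
  have h8 : j < i + 1 := (pow_lt_pow_iff_right₀ hq).1 h6
  omega

theorem PB_subset {U q V : ℝ} {J : ℕ} (hU : 0 < U) (hq : 1 < q) (hV : V ≤ U * q ^ J) :
    PB U V ⊆ (range J).biUnion (blk U q) := by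
  intro z hz
  rw [mem_PB] at hz
  obtain ⟨h1, h2, h3, h4, h5⟩ := hz
  have h6 : 1 ≤ (nm z : ℝ) / U := by rwa [le_div_iff₀ hU, one_mul]
  obtain ⟨j, hj1, hj2⟩ := exists_nat_pow_near h6 hq
  rw [le_div_iff₀ hU] at hj1
  rw [div_lt_iff₀ hU] at hj2
  rw [mem_biUnion]
  refine ⟨j, ?_, ?_⟩
  · rw [mem_range]
    have h7 : q ^ j * U < U * q ^ J := (hj1.trans_lt h5).trans_le hV
    rw [mul_comm] at h7
    exact (pow_lt_pow_iff_right₀ hq).1 (lt_of_mul_lt_mul_left h7 hU.le)
  · unfold blk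
    rw [mem_PB]
    refine ⟨h1, h2, h3, ?_, ?_⟩
    · rw [mul_comm]; exact hj1
    · rw [mul_comm]; exact hj2

theorem sum_blk {U q V : ℝ} {J : ℕ} (hU : 0 < U) (hq : 1 < q) (hV : V ≤ U * q ^ J) :
    ∑ z ∈ PB U V, 1 / (nm z : ℝ) ≤ ∑ j ∈ range J, ((blk U q j).card : ℝ) / (U * q ^ j) := by
  classical
  have hq0 : 0 < q := by linarith
  calc ∑ z ∈ PB U V, 1 / (nm z : ℝ) ≤ ∑ z ∈ (range J).biUnion (blk U q), 1 / (nm z : ℝ) :=
        Finset.sum_le_sum_of_subset_of_nonneg (PB_subset hU hq hV) (fun z _ _ => by positivity)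
    _ = ∑ j ∈ range J, ∑ z ∈ blk U q j, 1 / (nm z : ℝ) := by
        apply Finset.sum_biUnion
        intro i _ j _ hij
        exact blk_disjoint hU hq hij
    _ ≤ ∑ j ∈ range J, ((blk U q j).card : ℝ) / (U * q ^ j) := by
        apply Finset.sum_le_sum
        intro j _
        rw [div_eq_mul_one_div, ← nsmul_eq_mul]
        apply Finset.sum_le_card_nsmul
        intro z hz
        unfold blk at hz
        rw [mem_PB] at hz
        exact one_div_le_one_div_of_le (by positivity) hz.2.2.2.1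

/-- the good blocks still carry most of the sum -/
theorem good_blk {U q W t : ℝ} {J : ℕ} (hU : 0 < U) (hq : 1 < q)
    (hW : W ≤ ∑ j ∈ range J, ((blk U q j).card : ℝ) / (U * q ^ j)) (ht : J * t ≤ W / 2) (ht0 : 0 ≤ t) :
    W / 2 ≤ ∑ j ∈ (range J).filter (fun j => t * (U * q ^ j) ≤ ((blk U q j).card : ℝ)),
      ((blk U q j).card : ℝ) / (U * q ^ j) := by
  classical
  have hq0 : 0 < q := by linarith
  have h1 := Finset.sum_filter_add_sum_filter_not (range J)
    (fun j => t * (U * q ^ j) ≤ ((blk U q j).card : ℝ)) (fun j => ((blk U q j).card : ℝ) / (U * q ^ j))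
  have h2 : ∑ j ∈ (range J).filter (fun j => ¬ t * (U * q ^ j) ≤ ((blk U q j).card : ℝ)),
      ((blk U q j).card : ℝ) / (U * q ^ j) ≤ J * t := by
    calc ∑ j ∈ (range J).filter (fun j => ¬ t * (U * q ^ j) ≤ ((blk U q j).card : ℝ)),
      ((blk U q j).card : ℝ) / (U * q ^ j) ≤
        ((range J).filter (fun j => ¬ t * (U * q ^ j) ≤ ((blk U q j).card : ℝ))).card • t := by
          apply Finset.sum_le_card_nsmul
          intro j hj
          have := (Finset.mem_filter.1 hj).2
          rw [not_le] at this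
          rw [div_le_iff₀ (by positivity)]
          exact this.le
      _ ≤ J * t := by
          rw [nsmul_eq_mul]
          apply mul_le_mul_of_nonneg_right _ ht0
          have := Finset.card_filter_le (range J) (fun j => ¬ t * (U * q ^ j) ≤ ((blk U q j).card : ℝ))
          rw [card_range] at this
          exact_mod_cast this
  linarith

end MPC
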