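import Pool.Agent.MPC.C2
import Pool.Agent.MPC.D3
import Pool.Agent.MPC.E1
import Pool.Agent.MPC.E2

/-! # [MPC-E3] a fixed interval -/

set_option autoImplicit false

namespace MPC

open Finset

theorem e3_K {M g : ℕ} (hg : 1 ≤ g) (hgM : g ≤ 2 * M) : ∃ K : ℕ, 128 ≤ K ∧ 4 * (M : ℝ) / g ≤ K ∧
    (K : ℝ) ≤ 262 * ((M : ℝ) / g) := by
  have hg0 : (0 : ℝ) < g := by exact_mod_cast hg
  have h1 : (1 : ℝ) / 2 ≤ (M : ℝ) / g := by
    rw [div_le_div_iff₀ (by norm_num) hg0]
    have : (g : ℝ) ≤ 2 * M := by exact_mod_cast hgM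
    linarith
  refine ⟨128 + ⌈4 * (M : ℝ) / g⌉₊, by omega, ?_, ?_⟩
  · have := Nat.le_ceil (4 * (M : ℝ) / g)
    push_cast
    linarith
  · have h2 : 0 ≤ 4 * (M : ℝ) / g := by positivity
    have := (Nat.ceil_lt_add_one h2).le
    push_cast
    have h3 : 4 * (M : ℝ) / g = 4 * ((M : ℝ) / g) := by ring
    rw [h3] at this
    rw [h3]
    linarith

theorem e3_J {K : ℕ} {U κ : ℝ} (hK : 128 ≤ K) (hU : 3 ≤ U) (hκ : 0 < κ) (hκ1 : κ ≤ 1) :
    ∃ J : ℕ, 1 ≤ J ∧ U ^ (1 + κ) ≤ U * (1 + 1 / (K : ℝ)) ^ J ∧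
      (∀ j, j < J → U * (1 + 1 / (K : ℝ)) ^ j ≤ U ^ (1 + κ)) ∧ (J : ℝ) ≤ 3 * K * Real.log U := by
  have hU0 : 0 < U := by linarith
  have hK0 : (128 : ℝ) ≤ K := by exact_mod_cast hK
  have hKp : (0 : ℝ) < K := by linarith
  set q : ℝ := 1 + 1 / (K : ℝ) with hq
  have hq1 : 1 < q := by
    have : (0 : ℝ) < 1 / K := by positivity
    linarith
  have hq0 : 0 < q := by linarith
  have hlq : 1 / ((K : ℝ) + 1) ≤ Real.log q := by
    have h1 := Real.one_sub_inv_le_log_of_pos hq0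
    have h2 : 1 - q⁻¹ = 1 / ((K : ℝ) + 1) := by
      rw [hq]
      field_simp
      ring
    rwa [h2] at h1
  have hlq0 : 0 < Real.log q := Real.log_pos hq1
  have hlU : 1 ≤ Real.log U := by
    rw [Real.le_log_iff_exp_le hU0]
    have := Real.exp_one_lt_d9
    linarith
  have hx0 : 0 < κ * Real.log U / Real.log q := by positivity
  refine ⟨⌈κ * Real.log U / Real.log q⌉₊, Nat.ceil_pos.2 hx0, ?_, ?_, ?_⟩
  · rw [Real.rpow_add hU0, Real.rpow_one]
    apply mul_le_mul_of_nonneg_left _ hU0.le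
    rw [← Real.rpow_natCast, ← Real.log_le_log_iff (by positivity) (by positivity),
      Real.log_rpow hU0, Real.log_rpow hq0]
    have := Nat.le_ceil (κ * Real.log U / Real.log q)
    rw [div_le_iff₀ hlq0] at this
    exact this
  · intro j hj
    rw [Real.rpow_add hU0, Real.rpow_one]
    apply mul_le_mul_of_nonneg_left _ hU0.le
    rw [← Real.rpow_natCast, ← Real.log_le_log_iff (by positivity) (by positivity),
      Real.log_rpow hU0, Real.log_rpow hq0]
    have h1 := Nat.lt_ceil.1 hj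
    rw [lt_div_iff₀ hlq0] at h1
    exact h1.le
  · have h1 := (Nat.ceil_lt_add_one hx0.le).le
    have h2 : κ * Real.log U / Real.log q ≤ (K + 1) * Real.log U := by
      rw [div_le_iff₀ hlq0]
      have h3 : 1 ≤ ((K : ℝ) + 1) * Real.log q := by
        rw [div_le_iff₀ (by linarith)] at hlq
        linarith
      calc κ * Real.log U ≤ 1 * Real.log U := mul_le_mul_of_nonneg_right hκ1 (by linarith)
        _ ≤ (((K : ℝ) + 1) * Real.log q) * Real.log U := mul_le_mul_of_nonneg_right h3 (by linarith)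
        _ = (K + 1) * Real.log U * Real.log q := by ring
    nlinarith

/-- the divisor bound in the range needed -/
theorem e3_tau {κ : ℝ} (hκ : 0 < κ) (hκ1 : κ ≤ 1) {C2 : ℝ} (hC2 : 1 ≤ C2) : ∃ Ct : ℝ, 1 ≤ Ct ∧ ∀ (U : ℝ) (m : ℕ), 1 ≤ U →
    1 ≤ m → (m : ℝ) ≤ C2 * U ^ (3 : ℕ) → (m.divisors.card : ℝ) ≤ Ct * U ^ κ := by
  obtain ⟨Ct, hCt1, hCt⟩ := Pool.Agent.Lib.helper69.card_divisors_le_rpow (κ / 3) (by positivity)
  refine ⟨Ct * C2, by nlinarith, fun U m hU hm1 hm => ?_⟩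
  have hU0 : 0 < U := by linarith
  calc (m.divisors.card : ℝ) ≤ Ct * (m : ℝ) ^ (κ / 3) := hCt m hm1
    _ ≤ Ct * (C2 * U ^ (3 : ℕ)) ^ (κ / 3) := by
        apply mul_le_mul_of_nonneg_left _ (by linarith)
        exact Real.rpow_le_rpow (Nat.cast_nonneg _) hm (by positivity)
    _ = Ct * (C2 ^ (κ / 3) * U ^ κ) := by
        rw [Real.mul_rpow (by linarith) (by positivity), ← Real.rpow_natCast U 3, ← Real.rpow_mul hU0.le]
        congr 3
        push_cast
        ring
    _ ≤ Ct * (C2 * U ^ κ) := by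
        apply mul_le_mul_of_nonneg_left _ (by linarith)
        apply mul_le_mul_of_nonneg_right _ (by positivity)
        calc C2 ^ (κ / 3) ≤ C2 ^ (1 : ℝ) := Real.rpow_le_rpow_of_exponent_le hC2 (by linarith)
          _ = C2 := Real.rpow_one C2
    _ = Ct * C2 * U ^ κ := by ring

theorem e3_log {U κ : ℝ} (hU : 3 ≤ U) (hκ : 0 < κ) : Real.log U ^ 2 ≤ 4 / κ ^ 2 * U ^ κ := by
  have hU0 : 0 < U := by linarith
  have h1 := Real.log_le_rpow_div hU0.le (show 0 < κ / 2 by positivity)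
  have h0 : 0 ≤ Real.log U := Real.log_nonneg (by linarith)
  calc Real.log U ^ 2 ≤ (U ^ (κ / 2) / (κ / 2)) ^ 2 := pow_le_pow_left₀ h0 h1 2
    _ = 4 / κ ^ 2 * (U ^ (κ / 2)) ^ 2 := by field_simp; ring
    _ = 4 / κ ^ 2 * U ^ κ := by
        rw [← Real.rpow_natCast (U ^ (κ / 2)) 2, ← Real.rpow_mul hU0.le]
        congr 2
        push_cast
        ring

theorem fixed_interval : ∃ c : ℝ, 0 < c ∧ ∀ κ : ℝ, 0 < κ → κ ≤ 1 → ∃ C : ℝ, 1 ≤ C ∧
    ∀ (M g A : ℕ) (U : ℝ), 1 ≤ g → g ≤ 2 * M → A ≤ 2 * M → 4 * (M : ℝ) ≤ U →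
    (((Icc 1 (2 * M)).filter (fun n => A + g ≤ n ∧ ((SS U n A (A + g)).card : ℝ) < c * κ * g)).card : ℝ) ≤
      C * ((M : ℝ) / g) ^ 4 * U ^ (1 + 4 * κ) / M := by
  classical
  obtain ⟨C2, hC21, hC2⟩ := exceptional
  obtain ⟨c3, hc3, h3⟩ := sum_PB
  have hC20 : 0 < C2 := by linarith
  refine ⟨c3 / (2 * C2), by positivity, fun κ hκ hκ1 => ?_⟩
  obtain ⟨X0, hX0, hW⟩ := h3 κ hκ hκ1
  obtain ⟨Ct, hCt1, hCt⟩ := e3_tau hκ hκ1 hC21
  set C' : ℝ := 18 * 262 ^ 2 * 4 * C2 * Ct / (c3 * κ ^ 3) with hC'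
  have hC'0 : 0 < C' := by positivity
  refine ⟨C' + 2 * X0 + 1, by linarith, fun M g A U hg hgM hA hU => ?_⟩
  have hM1 : 1 ≤ M := by omega
  have hM0 : (1 : ℝ) ≤ M := by exact_mod_cast hM1
  have hg0 : (1 : ℝ) ≤ g := by exact_mod_cast hg
  have hgM' : (g : ℝ) ≤ 2 * M := by exact_mod_cast hgM
  have hA' : (A : ℝ) ≤ 2 * M := by exact_mod_cast hA
  have hU1 : 1 ≤ U := by linarith
  have hU0 : 0 < U := by linarith
  have hMg : (1 : ℝ) / 2 ≤ (M : ℝ) / g := by
    rw [div_le_div_iff₀ (by norm_num) (by linarith)]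
    linarith
  set Bad := (Icc 1 (2 * M)).filter
    (fun n => A + g ≤ n ∧ ((SS U n A (A + g)).card : ℝ) < c3 / (2 * C2) * κ * g) with hBad
  have hMg4 : (1 : ℝ) / 16 ≤ ((M : ℝ) / g) ^ 4 := by
    have := pow_le_pow_left₀ (by norm_num : (0 : ℝ) ≤ 1 / 2) hMg 4
    norm_num at this ⊢
    exact this
  rcases lt_or_ge U X0 with hlt | hge
  · -- small `U`
    have h1 : (Bad.card : ℝ) ≤ 2 * M := by
      have h2 := Finset.card_filter_le (Icc 1 (2 * M))
        (fun n => A + g ≤ n ∧ ((SS U n A (A + g)).card : ℝ) < c3 / (2 * C2) * κ * g)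
      rw [Nat.card_Icc] at h2
      have h3 : Bad.card ≤ 2 * M := h2.trans (by omega)
      exact_mod_cast h3
    have h4 : (4 : ℝ) ≤ U ^ (1 + 4 * κ) / M := by
      rw [le_div_iff₀ (by linarith)]
      calc 4 * (M : ℝ) ≤ U := hU
        _ = U ^ (1 : ℝ) := (Real.rpow_one U).symm
        _ ≤ U ^ (1 + 4 * κ) := Real.rpow_le_rpow_of_exponent_le hU1 (by linarith)
    calc (Bad.card : ℝ) ≤ 2 * M := h1
      _ ≤ X0 / 2 := by linarith
      _ ≤ (C' + 2 * X0 + 1) * (1 / 16) * 4 := by linarith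
      _ ≤ (C' + 2 * X0 + 1) * ((M : ℝ) / g) ^ 4 * (U ^ (1 + 4 * κ) / M) := by
          apply mul_le_mul _ h4 (by norm_num) (by positivity)
          exact mul_le_mul_of_nonneg_left hMg4 (by positivity)
      _ = (C' + 2 * X0 + 1) * ((M : ℝ) / g) ^ 4 * U ^ (1 + 4 * κ) / M := by ring
  · -- large `U`
    have hU3 : 3 ≤ U := hX0.trans hge
    obtain ⟨K, hK128, hK4, hK262⟩ := e3_K hg hgM
    obtain ⟨J, hJ1, hJV, hJj, hJle⟩ := e3_J hK128 hU3 hκ hκ1
    have hK0 : (128 : ℝ) ≤ K := by exact_mod_cast hK128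
    set q : ℝ := 1 + 1 / (K : ℝ) with hq
    have hK1 : (0 : ℝ) < 1 / K := by positivity
    have hq1 : 1 < q := by linarith
    have hq0 : 0 < q := by linarith
    have hJ0 : (1 : ℝ) ≤ J := by exact_mod_cast hJ1
    set W : ℝ := c3 * κ with hWd
    have hW0 : 0 < W := by positivity
    set t : ℝ := W / (2 * J) with ht
    have ht0 : 0 < t := by positivity
    have hlogU : 0 ≤ Real.log U := Real.log_nonneg hU1
    have hsum := (hW U hge).trans (sum_blk hU0 hq1 hJV)
    have hgood := good_blk (t := t) hU0 hq1 hsum (by rw [ht]; field_simp; exact le_refl _) ht0.le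
    set G := (range J).filter (fun j => t * (U * q ^ j) ≤ ((blk U q j).card : ℝ)) with hG
    -- the exceptional sets
    set E : ℕ → Finset ℕ := fun j => (Icc 1 (2 * M)).filter
      (fun n => (cnt (blk U q j) n A g : ℝ) < g / (C2 * (U * q ^ j)) * (blk U q j).card) with hE
    have hEcard : ∀ j ∈ G, ((E j).card : ℝ) ≤ C2 * (Ct * U ^ κ) * M * U ^ (1 + κ) / (g ^ 2 * t) := by
      intro j hj
      have hj' := Finset.mem_filter.1 hj
      have hjJ := mem_range.1 hj'.1
      set Y : ℝ := U * q ^ j with hY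
      have hqj : 1 ≤ q ^ j := one_le_pow₀ hq1.le
      have hUY : U ≤ Y := by rw [hY]; nlinarith
      have hYV : Y ≤ U ^ (1 + κ) := hJj j hjJ
      have hY0 : 0 < Y := by linarith
      have hYU2 : Y ≤ U ^ (2 : ℕ) := by
        refine hYV.trans ?_
        rw [← Real.rpow_natCast]
        apply Real.rpow_le_rpow_of_exponent_le hU1
        push_cast
        linarith
      have hz : ∀ z ∈ blk U q j, Good z ∧ Y ≤ nm z ∧ (nm z : ℝ) ≤ 129 / 128 * Y ∧
          (A : ℝ) * ((nm z : ℝ) - Y) ≤ g * Y / 2 := by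
        intro z hz
        have h1 : z ∈ PB (U * q ^ j) (U * q ^ (j + 1)) := hz
        have h2 := (mem_PB.1 h1).2.2.2
        have h3 : (nm z : ℝ) < Y * q := by
          have := h2.2
          rw [pow_succ, ← mul_assoc] at this
          exact this
        have h4 : Y * q = Y + Y * (1 / K) := by rw [hq]; ring
        have h5 : (1 : ℝ) / K ≤ 1 / 128 := one_div_le_one_div_of_le (by norm_num) hK0
        refine ⟨good_of_PB h1, h2.1, ?_, ?_⟩
        · nlinarith
        · have h6 : (nm z : ℝ) - Y ≤ Y * (1 / K) := by linarith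
          have h7 : (0 : ℝ) ≤ A := Nat.cast_nonneg A
          have h8 : 2 * (M : ℝ) * (1 / K) ≤ g / 2 := by
            rw [div_le_iff₀ (by linarith)] at hK4
            rw [mul_one_div, div_le_div_iff₀ (by linarith) (by norm_num)]
            linarith
          calc (A : ℝ) * ((nm z : ℝ) - Y) ≤ A * (Y * (1 / K)) := mul_le_mul_of_nonneg_left h6 h7
            _ ≤ (2 * M) * (Y * (1 / K)) := mul_le_mul_of_nonneg_right hA' (by positivity)
            _ = (2 * (M : ℝ) * (1 / K)) * Y := by ring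
            _ ≤ (g / 2) * Y := mul_le_mul_of_nonneg_right h8 hY0.le
            _ = g * Y / 2 := by ring
      have hτ : ∀ m : ℕ, 1 ≤ m → (m : ℝ) ≤ C2 * M * Y / g → (m.divisors.card : ℝ) ≤ Ct * U ^ κ := by
        intro m hm1 hm
        apply hCt U m hU1 hm1
        refine hm.trans ?_
        rw [div_le_iff₀ (by linarith)]
        calc C2 * M * Y ≤ C2 * U * U ^ (2 : ℕ) := by
              apply mul_le_mul _ hYU2 hY0.le (by positivity)
              exact mul_le_mul_of_nonneg_left (by linarith) hC20.le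
          _ = C2 * U ^ (3 : ℕ) * 1 := by ring
          _ ≤ C2 * U ^ (3 : ℕ) * g := mul_le_mul_of_nonneg_left hg0 (by positivity)
      have h9 := hC2 M g A Y (Ct * U ^ κ) (blk U q j) (E j) hg hgM (by linarith) (by linarith) hz hτ
        (by
          intro n hn
          have hn' := Finset.mem_filter.1 hn
          have hn1 := mem_Icc.1 hn'.1
          exact ⟨hn1.1, hn1.2, hn'.2⟩)
      have h10 : t * Y ≤ ((blk U q j).card : ℝ) := hj'.2
      have h11 : t * Y * (E j).card ≤ C2 * (Ct * U ^ κ) * M * Y ^ 2 / g ^ 2 :=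
        (mul_le_mul_of_nonneg_right h10 (Nat.cast_nonneg _)).trans h9
      have h12 : ((E j).card : ℝ) ≤ C2 * (Ct * U ^ κ) * M * Y / (g ^ 2 * t) := by
        rw [le_div_iff₀ (by positivity)]
        rw [le_div_iff₀ (by positivity)] at h11
        have h13 : (((E j).card : ℝ) * (g ^ 2 * t)) * Y ≤ (C2 * (Ct * U ^ κ) * M * Y) * Y := by
          nlinarith
        exact le_of_mul_le_mul_right h13 hY0
      refine h12.trans ?_
      apply div_le_div_of_nonneg_right _ (by positivity)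
      exact mul_le_mul_of_nonneg_left hYV (by positivity)
    -- the bad set is covered
    have hcov : Bad ⊆ G.biUnion E := by
      intro n hn
      have hn' := Finset.mem_filter.1 hn
      have hn1 := mem_Icc.1 hn'.1
      by_contra hcon
      have hnot : ∀ j ∈ G, g / (C2 * (U * q ^ j)) * (blk U q j).card ≤ (cnt (blk U q j) n A g : ℝ) := by
        intro j hj
        by_contra hlt
        rw [not_le] at hlt
        exact hcon (mem_biUnion.2 ⟨j, hj, Finset.mem_filter.2 ⟨hn'.1, hlt⟩⟩)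
      have h1 : cnt (G.biUnion (blk U q)) n A g ≤ (SS U n A (A + g)).card := by
        apply cnt_le hM1 hn1.2 hU hn'.2.1
        intro z hz
        obtain ⟨j, hj, hz⟩ := mem_biUnion.1 hz
        have h2 : z ∈ PB (U * q ^ j) (U * q ^ (j + 1)) := hz
        rw [mem_PB] at h2
        refine ⟨h2.1, h2.2.1, h2.2.2.1, le_trans ?_ h2.2.2.2.1⟩
        have hqj : 1 ≤ q ^ j := one_le_pow₀ hq1.le
        nlinarith
      rw [← cnt_biUnion G (blk U q) (fun i _ j _ hij => blk_disjoint hU0 hq1 hij)] at h1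
      have h2 : (∑ j ∈ G, (cnt (blk U q j) n A g : ℝ)) ≤ ((SS U n A (A + g)).card : ℝ) := by
        exact_mod_cast h1
      have h3 : (g : ℝ) / C2 * (W / 2) ≤ ∑ j ∈ G, (cnt (blk U q j) n A g : ℝ) := by
        calc (g : ℝ) / C2 * (W / 2) ≤ g / C2 * ∑ j ∈ G, ((blk U q j).card : ℝ) / (U * q ^ j) :=
              mul_le_mul_of_nonneg_left hgood (by positivity)
          _ = ∑ j ∈ G, g / (C2 * (U * q ^ j)) * (blk U q j).card := by
              rw [Finset.mul_sum]
              apply Finset.sum_congr rfl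
              intro j _
              have : 0 < U * q ^ j := by positivity
              field_simp
          _ ≤ _ := Finset.sum_le_sum hnot
      have h4 := hn'.2.2
      have h5 : (g : ℝ) / C2 * (W / 2) = c3 / (2 * C2) * κ * g := by
        rw [hWd]
        field_simp
      linarith
    have hsumE : (Bad.card : ℝ) ≤ J * (C2 * (Ct * U ^ κ) * M * U ^ (1 + κ) / (g ^ 2 * t)) := by
      calc (Bad.card : ℝ) ≤ ((G.biUnion E).card : ℝ) := by exact_mod_cast Finset.card_le_card hcov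
        _ ≤ ∑ j ∈ G, ((E j).card : ℝ) := by exact_mod_cast Finset.card_biUnion_le
        _ ≤ G.card • (C2 * (Ct * U ^ κ) * M * U ^ (1 + κ) / (g ^ 2 * t)) :=
            Finset.sum_le_card_nsmul _ _ _ hEcard
        _ ≤ J * (C2 * (Ct * U ^ κ) * M * U ^ (1 + κ) / (g ^ 2 * t)) := by
            rw [nsmul_eq_mul]
            apply mul_le_mul_of_nonneg_right _ (by positivity)
            have := Finset.card_filter_le (range J) (fun j => t * (U * q ^ j) ≤ ((blk U q j).card : ℝ))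
            rw [card_range] at this
            exact_mod_cast this
    have hfin : (J : ℝ) * (C2 * (Ct * U ^ κ) * M * U ^ (1 + κ) / (g ^ 2 * t)) ≤
        C' * ((M : ℝ) / g) ^ 4 * U ^ (1 + 4 * κ) / M := by
      have h1 : (J : ℝ) * (C2 * (Ct * U ^ κ) * M * U ^ (1 + κ) / (g ^ 2 * t)) =
          (J : ℝ) ^ 2 * (2 * C2 * Ct * M * (U ^ κ * U ^ (1 + κ)) / (g ^ 2 * W)) := by
        rw [ht]
        field_simp
      have h2 : (J : ℝ) ^ 2 ≤ 9 * (262 * ((M : ℝ) / g)) ^ 2 * (4 / κ ^ 2 * U ^ κ) := by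
        calc (J : ℝ) ^ 2 ≤ (3 * K * Real.log U) ^ 2 := pow_le_pow_left₀ (by positivity) hJle 2
          _ = 9 * (K : ℝ) ^ 2 * Real.log U ^ 2 := by ring
          _ ≤ 9 * (262 * ((M : ℝ) / g)) ^ 2 * (4 / κ ^ 2 * U ^ κ) := by
              apply mul_le_mul _ (e3_log hU3 hκ) (by positivity) (by positivity)
              apply mul_le_mul_of_nonneg_left _ (by norm_num)
              exact pow_le_pow_left₀ (by positivity) hK262 2
      rw [h1]
      calc (J : ℝ) ^ 2 * (2 * C2 * Ct * M * (U ^ κ * U ^ (1 + κ)) / (g ^ 2 * W)) ≤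
            (9 * (262 * ((M : ℝ) / g)) ^ 2 * (4 / κ ^ 2 * U ^ κ)) *
              (2 * C2 * Ct * M * (U ^ κ * U ^ (1 + κ)) / (g ^ 2 * W)) :=
              mul_le_mul_of_nonneg_right h2 (by positivity)
        _ = C' * ((M : ℝ) / g) ^ 4 * (U ^ κ * (U ^ κ * U ^ (1 + κ))) / M := by
              rw [hC', hWd]
              field_simp
              ring
        _ ≤ C' * ((M : ℝ) / g) ^ 4 * U ^ (1 + 4 * κ) / M := by
              apply div_le_div_of_nonneg_right _ (by positivity)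
              apply mul_le_mul_of_nonneg_left _ (by positivity)
              rw [← Real.rpow_add hU0, ← Real.rpow_add hU0]
              exact Real.rpow_le_rpow_of_exponent_le hU1 (by linarith)
    calc (Bad.card : ℝ) ≤ _ := hsumE
      _ ≤ C' * ((M : ℝ) / g) ^ 4 * U ^ (1 + 4 * κ) / M := hfin
      _ ≤ (C' + 2 * X0 + 1) * ((M : ℝ) / g) ^ 4 * U ^ (1 + 4 * κ) / M := by
          apply div_le_div_of_nonneg_right _ (by positivity)
          apply mul_le_mul_of_nonneg_right _ (by positivity)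
          apply mul_le_mul_of_nonneg_right _ (by positivity)
          linarith

end MPC
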