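import Pool.Agent.MPC.E3

/-! # [MPC-F1] all intervals, one dyadic block of `n` -/

set_option autoImplicit false

namespace MPC

open Finset

/-- `n` is exceptional: some long interval has too few `s` with a large prime factor of `n ^ 2 + s ^ 2` -/
def Bad (c L R : ℝ) (n : ℕ) : Prop :=
  ∃ A B : ℕ, A < B ∧ B ≤ n ∧ (n : ℝ) / R ≤ (B : ℝ) - A ∧
    ((SS ((n : ℝ) ^ 2 / L) n A B).card : ℝ) < c * ((B : ℝ) - A)

theorem SS_mono {U V : ℝ} (h : U ≤ V) (n A B : ℕ) : SS V n A B ⊆ SS U n A B := by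
  intro s hs
  rw [mem_SS] at hs ⊢
  obtain ⟨h1, p, hp, h2, h3⟩ := hs
  exact ⟨h1, p, hp, h.trans h2, h3⟩

theorem SS_grid (U : ℝ) (n g i0 i1 A B : ℕ) (hg : 1 ≤ g) (hA : A ≤ i0 * g) (hB : i1 * g ≤ B) :
    ∑ i ∈ Ico i0 i1, (SS U n (i * g) (i * g + g)).card ≤ (SS U n A B).card := by
  classical
  rw [← card_biUnion]
  · apply Finset.card_le_card
    intro s hs
    obtain ⟨i, hi, hs⟩ := mem_biUnion.1 hs
    rw [mem_Ico] at hi
    rw [mem_SS] at hs ⊢
    refine ⟨⟨?_, ?_⟩, hs.2⟩
    · have : i0 * g ≤ i * g := Nat.mul_le_mul_right g hi.1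
      omega
    · have : (i + 1) * g ≤ i1 * g := Nat.mul_le_mul_right g hi.2
      have h2 : (i + 1) * g = i * g + g := by ring
      omega
  · intro i _ j _ hij
    rw [Function.onFun, Finset.disjoint_left]
    intro s hs hs'
    rw [mem_SS] at hs hs'
    rcases lt_or_gt_of_ne hij with h | h
    · have : (i + 1) * g ≤ j * g := Nat.mul_le_mul_right g h
      have h2 : (i + 1) * g = i * g + g := by ring
      omega
    · have : (j + 1) * g ≤ i * g := Nat.mul_le_mul_right g h
      have h2 : (j + 1) * g = j * g + g := by ring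
      omega

theorem grid_count {A B g : ℕ} (hg : 1 ≤ g) (h : 4 * (g : ℝ) ≤ (B : ℝ) - A) :
    ∃ i0 i1 : ℕ, A ≤ i0 * g ∧ i1 * g ≤ B ∧ ((B : ℝ) - A) / 2 ≤ ((Ico i0 i1).card : ℝ) * g := by
  have hg0 : 0 < g := by omega
  refine ⟨A / g + 1, B / g, ?_, Nat.div_mul_le_self B g, ?_⟩
  · have h1 := Nat.lt_div_mul_add (a := A) hg0
    have : (A / g + 1) * g = A / g * g + g := by ring
    omega
  · rw [Nat.card_Ico]
    have h1 : (B : ℝ) < ((B / g : ℕ) : ℝ) * g + g := by
      exact_mod_cast Nat.lt_div_mul_add (a := B) hg0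
    have h2 : ((A / g : ℕ) : ℝ) * g ≤ A := by exact_mod_cast Nat.div_mul_le_self A g
    have h3 : ((B / g : ℕ) : ℝ) - ((A / g + 1 : ℕ) : ℝ) ≤ ((B / g - (A / g + 1) : ℕ) : ℝ) := by
      have : (B / g : ℕ) ≤ (B / g - (A / g + 1)) + (A / g + 1) := by omega
      have : ((B / g : ℕ) : ℝ) ≤ ((B / g - (A / g + 1) : ℕ) : ℝ) + ((A / g + 1 : ℕ) : ℝ) := by
        exact_mod_cast this
      linarith
    have hgr : (0 : ℝ) < g := by exact_mod_cast hg0
    have h4 := mul_le_mul_of_nonneg_right h3 hgr.le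
    push_cast at h4
    rw [sub_mul, add_mul] at h4
    linarith

theorem dyadic : ∃ c : ℝ, 0 < c ∧ ∀ κ : ℝ, 0 < κ → κ ≤ 1 → ∃ C : ℝ, 1 ≤ C ∧
    ∀ (M : ℕ) (L R : ℝ), 1 ≤ M → 1 ≤ L → L ≤ M → 1 ≤ R → open Classical in
    (((Ioc M (2 * M)).filter (fun n => Bad (c * κ) L R n)).card : ℝ) ≤
      C * R ^ 5 * (M : ℝ) ^ (1 + κ) / L := by
  classical
  obtain ⟨c1, hc1, h1⟩ := fixed_interval
  refine ⟨c1 / 16, by positivity, fun κ hκ hκ1 => ?_⟩
  obtain ⟨C1, hC1, h2⟩ := h1 (κ / 8) (by positivity) (by linarith)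
  refine ⟨16 * 8 ^ 4 * 16 * C1, by nlinarith, fun M L R hM hL hLM hR => ?_⟩
  have hM0 : (1 : ℝ) ≤ M := by exact_mod_cast hM
  have hMp : (0 : ℝ) < M := by linarith
  set S := (Ioc M (2 * M)).filter (fun n => Bad (c1 / 16 * κ) L R n) with hS
  have hcardM : (S.card : ℝ) ≤ M := by
    have h3 := Finset.card_filter_le (Ioc M (2 * M)) (fun n => Bad (c1 / 16 * κ) L R n)
    rw [Nat.card_Ioc] at h3
    have h4 : S.card ≤ M := h3.trans (by omega)
    exact_mod_cast h4
  have hMκ : (1 : ℝ) ≤ (M : ℝ) ^ κ := Real.one_le_rpow hM0 hκ.le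
  have hM1κ : (M : ℝ) ^ (1 + κ) = M * (M : ℝ) ^ κ := by rw [Real.rpow_add hMp, Real.rpow_one]
  set g : ℕ := ⌊(M : ℝ) / (4 * R)⌋₊ with hg
  rcases Nat.eq_zero_or_pos g with hg0 | hgpos
  · have h3 : (M : ℝ) / (4 * R) < 1 := by
      rw [← Nat.floor_eq_zero (a := (M : ℝ) / (4 * R))]
      exact hg0
    rw [div_lt_one (by linarith)] at h3
    have h4 : R ≤ R ^ 5 := le_self_pow₀ hR (by norm_num)
    calc (S.card : ℝ) ≤ M := hcardM
      _ ≤ 4 * R ^ 5 := by linarith
      _ ≤ (16 * 8 ^ 4 * 16 * C1) * R ^ 5 := by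
          apply mul_le_mul_of_nonneg_right _ (by positivity)
          linarith
      _ = (16 * 8 ^ 4 * 16 * C1) * R ^ 5 * 1 := by ring
      _ ≤ (16 * 8 ^ 4 * 16 * C1) * R ^ 5 * ((M : ℝ) ^ (1 + κ) / L) := by
          apply mul_le_mul_of_nonneg_left _ (by positivity)
          rw [le_div_iff₀ (by linarith), one_mul, hM1κ]
          nlinarith
      _ = _ := by ring
  · have hg1 : 1 ≤ g := hgpos
    have hgle : (g : ℝ) ≤ M / (4 * R) := Nat.floor_le (by positivity)
    have hglt : (M : ℝ) / (4 * R) < g + 1 := Nat.lt_floor_add_one _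
    have hgr : (1 : ℝ) ≤ g := by exact_mod_cast hg1
    have hMg : (M : ℝ) / g ≤ 8 * R := by
      rw [div_lt_iff₀ (by linarith)] at hglt
      rw [div_le_iff₀ (by linarith)]
      nlinarith
    have h4g : 4 * (g : ℝ) ≤ M / R := by
      have : (M : ℝ) / (4 * R) = M / R / 4 := by field_simp
      rw [this] at hgle
      linarith
    have hgM : g ≤ 2 * M := by
      have h3 : (g : ℝ) ≤ 2 * M := by
        have h5 : (M : ℝ) / R ≤ M := div_le_self hMp.le hR
        linarith
      exact_mod_cast h3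
    set U : ℝ := 4 * (M : ℝ) ^ 2 / L with hU
    have hUM : 4 * (M : ℝ) ≤ U := by
      rw [hU, le_div_iff₀ (by linarith)]
      nlinarith
    have hU0 : 0 < U := by positivity
    -- the bound for one interval
    set T : ℕ → Finset ℕ := fun i => (Icc 1 (2 * M)).filter
      (fun n => i * g + g ≤ n ∧ ((SS U n (i * g) (i * g + g)).card : ℝ) < c1 * (κ / 8) * g) with hT
    have hUpow : U ^ (1 + 4 * (κ / 8)) / M ≤ 16 * (M : ℝ) ^ (1 + κ) / L := by
      have h5 : U ^ (1 + 4 * (κ / 8)) = U * U ^ (κ / 2) := by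
        rw [Real.rpow_add hU0, Real.rpow_one]
        congr 2
        ring
      have h6 : U ^ (κ / 2) ≤ 4 * (M : ℝ) ^ κ := by
        calc U ^ (κ / 2) ≤ (4 * (M : ℝ) ^ 2) ^ (κ / 2) := by
              apply Real.rpow_le_rpow hU0.le _ (by positivity)
              exact div_le_self (by positivity) hL
          _ = (4 : ℝ) ^ (κ / 2) * (M : ℝ) ^ κ := by
              rw [Real.mul_rpow (by norm_num) (by positivity), ← Real.rpow_natCast (M : ℝ) 2,
                ← Real.rpow_mul hMp.le]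
              congr 2
              push_cast
              ring
          _ ≤ 4 * (M : ℝ) ^ κ := by
              apply mul_le_mul_of_nonneg_right _ (by positivity)
              calc (4 : ℝ) ^ (κ / 2) ≤ (4 : ℝ) ^ (1 : ℝ) :=
                    Real.rpow_le_rpow_of_exponent_le (by norm_num) (by linarith)
                _ = 4 := Real.rpow_one 4
      rw [h5, hM1κ]
      calc U * U ^ (κ / 2) / M ≤ U * (4 * (M : ℝ) ^ κ) / M := by
            apply div_le_div_of_nonneg_right _ hMp.le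
            exact mul_le_mul_of_nonneg_left h6 hU0.le
        _ = 16 * (M * (M : ℝ) ^ κ) / L := by
            rw [hU]
            field_simp
            ring
    have hTcard : ∀ i ∈ range (2 * M / g), ((T i).card : ℝ) ≤ C1 * (8 * R) ^ 4 * (16 * (M : ℝ) ^ (1 + κ) / L) := by
      intro i hi
      rw [mem_range] at hi
      have hiM : i * g ≤ 2 * M := by
        have := Nat.mul_le_mul_right g hi.le
        exact this.trans (Nat.div_mul_le_self _ _)
      have h5 := h2 M g (i * g) U hg1 hgM hiM hUM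
      refine h5.trans ?_
      have h6 : ((M : ℝ) / g) ^ 4 ≤ (8 * R) ^ 4 := pow_le_pow_left₀ (by positivity) hMg 4
      calc C1 * ((M : ℝ) / g) ^ 4 * U ^ (1 + 4 * (κ / 8)) / M =
          C1 * ((M : ℝ) / g) ^ 4 * (U ^ (1 + 4 * (κ / 8)) / M) := by ring
        _ ≤ C1 * (8 * R) ^ 4 * (16 * (M : ℝ) ^ (1 + κ) / L) := by
            apply mul_le_mul _ hUpow (by positivity) (by positivity)
            exact mul_le_mul_of_nonneg_left h6 (by linarith)
    have hcov : S ⊆ (range (2 * M / g)).biUnion T := by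
      intro n hn
      have hn' := Finset.mem_filter.1 hn
      have hn1 := mem_Ioc.1 hn'.1
      obtain ⟨A, B, hAB, hBn, hlen, hcnt⟩ := hn'.2
      by_contra hcon
      have hnot : ∀ i, i * g + g ≤ n → c1 * (κ / 8) * g ≤ ((SS U n (i * g) (i * g + g)).card : ℝ) := by
        intro i hi
        by_contra hlt
        rw [not_le] at hlt
        apply hcon
        rw [mem_biUnion]
        refine ⟨i, ?_, Finset.mem_filter.2 ⟨mem_Icc.2 ⟨by omega, hn1.2⟩, hi, hlt⟩⟩
        rw [mem_range, ← Nat.succ_le_iff, Nat.le_div_iff_mul_le hgpos]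
        have : (i + 1) * g = i * g + g := by ring
        show (i + 1) * g ≤ 2 * M
        omega
      have hnM : (M : ℝ) ≤ n := by exact_mod_cast hn1.1.le
      have hn2M : (n : ℝ) ≤ 2 * M := by exact_mod_cast hn1.2
      have hlen' : 4 * (g : ℝ) ≤ (B : ℝ) - A := by
        have : (M : ℝ) / R ≤ n / R := div_le_div_of_nonneg_right hnM (by linarith)
        linarith
      obtain ⟨i0, i1, hA0, hB1, hcard⟩ := grid_count hg1 hlen'
      have h5 := SS_grid U n g i0 i1 A B hg1 hA0 hB1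
      have h6 : (SS U n A B).card ≤ (SS ((n : ℝ) ^ 2 / L) n A B).card := by
        apply Finset.card_le_card
        apply SS_mono
        rw [hU]
        apply div_le_div_of_nonneg_right _ (by linarith)
        nlinarith
      have h7 : ((Ico i0 i1).card : ℝ) * (c1 * (κ / 8) * g) ≤
          ∑ i ∈ Ico i0 i1, ((SS U n (i * g) (i * g + g)).card : ℝ) := by
        rw [← nsmul_eq_mul]
        apply Finset.card_nsmul_le_sum
        intro i hi
        apply hnot
        rw [mem_Ico] at hi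
        have h8 : (i + 1) * g ≤ i1 * g := Nat.mul_le_mul_right g hi.2
        have h9 : (i + 1) * g = i * g + g := by ring
        omega
      have h8 : ∑ i ∈ Ico i0 i1, ((SS U n (i * g) (i * g + g)).card : ℝ) ≤
          ((SS ((n : ℝ) ^ 2 / L) n A B).card : ℝ) := by exact_mod_cast h5.trans h6
      have h9 : ((B : ℝ) - A) / 2 * (c1 * (κ / 8)) ≤ ((Ico i0 i1).card : ℝ) * (c1 * (κ / 8) * g) := by
        calc ((B : ℝ) - A) / 2 * (c1 * (κ / 8)) ≤ (((Ico i0 i1).card : ℝ) * g) * (c1 * (κ / 8)) :=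
              mul_le_mul_of_nonneg_right hcard (by positivity)
          _ = _ := by ring
      have h10 : ((B : ℝ) - A) / 2 * (c1 * (κ / 8)) = c1 / 16 * κ * ((B : ℝ) - A) := by ring
      linarith
    calc (S.card : ℝ) ≤ (((range (2 * M / g)).biUnion T).card : ℝ) := by
          exact_mod_cast Finset.card_le_card hcov
      _ ≤ ∑ i ∈ range (2 * M / g), ((T i).card : ℝ) := by exact_mod_cast Finset.card_biUnion_le
      _ ≤ (range (2 * M / g)).card • (C1 * (8 * R) ^ 4 * (16 * (M : ℝ) ^ (1 + κ) / L)) :=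
          Finset.sum_le_card_nsmul _ _ _ hTcard
      _ ≤ (16 * R) * (C1 * (8 * R) ^ 4 * (16 * (M : ℝ) ^ (1 + κ) / L)) := by
          rw [nsmul_eq_mul, card_range]
          apply mul_le_mul_of_nonneg_right _ (by positivity)
          have h5 : ((2 * M / g : ℕ) : ℝ) ≤ ((2 * M : ℕ) : ℝ) / g := Nat.cast_div_le
          push_cast at h5
          have h6 : 2 * (M : ℝ) / g = 2 * (M / g) := by ring
          rw [h6] at h5
          linarith
      _ = 16 * 8 ^ 4 * 16 * C1 * R ^ 5 * (M : ℝ) ^ (1 + κ) / L := by ring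

end MPC
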