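import Pool.Agent.MPC.F1

/-! # [MPC-G1] all `n ≤ N` -/

set_option autoImplicit false

namespace MPC

open Finset

theorem Bad_mono {c L L' R : ℝ} {n : ℕ} (hL' : 0 < L') (h : L' ≤ L) (hb : Bad c L R n) : Bad c L' R n := by
  obtain ⟨A, B, h1, h2, h3, h4⟩ := hb
  refine ⟨A, B, h1, h2, h3, lt_of_le_of_lt ?_ h4⟩
  have h5 : (SS ((n : ℝ) ^ 2 / L') n A B).card ≤ (SS ((n : ℝ) ^ 2 / L) n A B).card := by
    apply Finset.card_le_card
    apply SS_mono
    exact div_le_div_of_nonneg_left (by positivity) hL' h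
  exact_mod_cast h5

theorem log_bd (κ : ℝ) (hκ : 0 < κ) : ∃ C : ℝ, 1 ≤ C ∧ ∀ N : ℕ, 1 ≤ N →
    ((Nat.log 2 N : ℕ) : ℝ) + 1 ≤ C * (N : ℝ) ^ κ := by
  refine ⟨1 / (κ * Real.log 2) + 1, ?_, fun N hN => ?_⟩
  · have : 0 < Real.log 2 := Real.log_pos (by norm_num)
    have h : 0 < 1 / (κ * Real.log 2) := by positivity
    linarith
  · have hl : 0 < Real.log 2 := Real.log_pos (by norm_num)
    have hN0 : (1 : ℝ) ≤ N := by exact_mod_cast hN
    have h1 : (1 : ℝ) ≤ (N : ℝ) ^ κ := Real.one_le_rpow hN0 hκ.le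
    have h2 : (((2 : ℕ) ^ (Nat.log 2 N) : ℕ) : ℝ) ≤ N := by
      exact_mod_cast Nat.pow_log_le_self 2 (by omega)
    push_cast at h2
    have h3 : (Nat.log 2 N : ℝ) * Real.log 2 ≤ Real.log N := by
      rw [← Real.log_pow]
      exact Real.log_le_log (by positivity) h2
    have h4 := Real.log_le_rpow_div (by linarith : (0 : ℝ) ≤ N) hκ
    have h5 : (Nat.log 2 N : ℝ) ≤ 1 / (κ * Real.log 2) * (N : ℝ) ^ κ := by
      have h6 : (Nat.log 2 N : ℝ) * Real.log 2 ≤ (N : ℝ) ^ κ / κ := h3.trans h4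
      rw [← le_div_iff₀ hl] at h6
      refine h6.trans (le_of_eq ?_)
      field_simp
    nlinarith

theorem large_factor : ∃ c : ℝ, 0 < c ∧ ∀ κ : ℝ, 0 < κ → κ ≤ 1 → ∃ C : ℝ, 1 ≤ C ∧
    ∀ (N : ℕ) (L R : ℝ), 1 ≤ N → 1 ≤ L → L ≤ N → 1 ≤ R → open Classical in
    (((Icc 1 N).filter (fun n => Bad (c * κ) L R n)).card : ℝ) ≤
      C * R ^ 5 * (N : ℝ) ^ (1 + κ) / L := by
  classical
  obtain ⟨c1, hc1, h1⟩ := dyadic
  refine ⟨c1 / 2, by positivity, fun κ hκ hκ1 => ?_⟩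
  obtain ⟨C1, hC1, h2⟩ := h1 (κ / 2) (by positivity) (by linarith)
  obtain ⟨C2, hC2, h3⟩ := log_bd (κ / 2) (by positivity)
  refine ⟨C1 * C2 + 1, by nlinarith, fun N L R hN hL hLN hR => ?_⟩
  have hN1 : (1 : ℝ) ≤ N := by exact_mod_cast hN
  have hN0 : (0 : ℝ) < N := by linarith
  have hck : c1 / 2 * κ = c1 * (κ / 2) := by ring
  rw [hck]
  set S := (Icc 1 N).filter (fun n => Bad (c1 * (κ / 2)) L R n) with hS
  set T : ℕ → Finset ℕ := fun i => (Ioc (2 ^ i) (2 * 2 ^ i)).filter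
    (fun n => Bad (c1 * (κ / 2)) (min L ((2 ^ i : ℕ) : ℝ)) R n) with hT
  have hcov : S ⊆ insert 1 ((range (Nat.log 2 N + 1)).biUnion T) := by
    intro n hn
    have hn' := Finset.mem_filter.1 hn
    have hn1 := mem_Icc.1 hn'.1
    rw [mem_insert]
    rcases Nat.eq_or_lt_of_le hn1.1 with h | h
    · exact Or.inl h.symm
    · right
      rw [mem_biUnion]
      -- `i = log (n - 1)`
      have h4 : n - 1 ≠ 0 := by omega
      have h5 := Nat.pow_log_le_self 2 h4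
      have h6 := Nat.lt_pow_succ_log_self (by norm_num : 1 < 2) (n - 1)
      refine ⟨Nat.log 2 (n - 1), ?_, ?_⟩
      · rw [mem_range]
        have : Nat.log 2 (n - 1) ≤ Nat.log 2 N := Nat.log_mono_right (by omega)
        omega
      · rw [hT]
        rw [pow_succ] at h6
        refine Finset.mem_filter.2 ⟨mem_Ioc.2 ⟨by omega, by omega⟩, ?_⟩
        apply Bad_mono _ (min_le_left _ _) hn'.2
        apply lt_min (by linarith)
        positivity
  have hTc : ∀ i ∈ range (Nat.log 2 N + 1), ((T i).card : ℝ) ≤ C1 * R ^ 5 * (N : ℝ) ^ (1 + κ / 2) / L := by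
    intro i hi
    rw [mem_range] at hi
    have hiN : 2 ^ i ≤ N := by
      calc 2 ^ i ≤ 2 ^ (Nat.log 2 N) := Nat.pow_le_pow_right (by norm_num) (by omega)
        _ ≤ N := Nat.pow_log_le_self 2 (by omega)
    have hiN' : ((2 ^ i : ℕ) : ℝ) ≤ N := by exact_mod_cast hiN
    have hi1 : (1 : ℝ) ≤ ((2 ^ i : ℕ) : ℝ) := by exact_mod_cast Nat.one_le_two_pow
    have h4 := h2 (2 ^ i) (min L ((2 ^ i : ℕ) : ℝ)) R Nat.one_le_two_pow (le_min hL hi1)
      (min_le_right _ _) hR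
    refine h4.trans ?_
    set X : ℝ := ((2 ^ i : ℕ) : ℝ) with hX
    have hX0 : 0 < X := by linarith
    have hC1R : 0 ≤ C1 * R ^ 5 := by positivity
    rw [mul_div_assoc, mul_div_assoc]
    apply mul_le_mul_of_nonneg_left _ hC1R
    rw [div_le_div_iff₀ (lt_min (by linarith) hX0) (by linarith)]
    have h5 : X ^ (1 + κ / 2) = X * X ^ (κ / 2) := by rw [Real.rpow_add hX0, Real.rpow_one]
    have h6 : (N : ℝ) ^ (1 + κ / 2) = N * (N : ℝ) ^ (κ / 2) := by rw [Real.rpow_add hN0, Real.rpow_one]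
    have h7 : X ^ (κ / 2) ≤ (N : ℝ) ^ (κ / 2) := Real.rpow_le_rpow hX0.le hiN' (by positivity)
    have h8 : 0 ≤ (N : ℝ) ^ (κ / 2) := by positivity
    rw [h5, h6]
    rcases le_total L X with hLX | hLX
    · rw [min_eq_left hLX]
      have h9 : X * X ^ (κ / 2) ≤ N * (N : ℝ) ^ (κ / 2) := mul_le_mul hiN' h7 (by positivity) hN0.le
      exact mul_le_mul_of_nonneg_right h9 (by linarith)
    · rw [min_eq_right hLX]
      calc X * X ^ (κ / 2) * L ≤ X * (N : ℝ) ^ (κ / 2) * N := by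
            apply mul_le_mul _ hLN (by linarith) (by positivity)
            exact mul_le_mul_of_nonneg_left h7 hX0.le
        _ = N * (N : ℝ) ^ (κ / 2) * X := by ring
  have h1L : (1 : ℝ) ≤ R ^ 5 * (N : ℝ) ^ (1 + κ) / L := by
    rw [le_div_iff₀ (by linarith), one_mul]
    have h5 : (N : ℝ) ^ (1 + κ) = N * (N : ℝ) ^ κ := by rw [Real.rpow_add hN0, Real.rpow_one]
    have h6 : (1 : ℝ) ≤ (N : ℝ) ^ κ := Real.one_le_rpow hN1 hκ.le
    have h7 : (1 : ℝ) ≤ R ^ 5 := one_le_pow₀ hR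
    rw [h5]
    calc L ≤ N := hLN
      _ = 1 * (N * 1) := by ring
      _ ≤ R ^ 5 * (N * (N : ℝ) ^ κ) := by
          apply mul_le_mul h7 _ (by positivity) (by positivity)
          exact mul_le_mul_of_nonneg_left h6 hN0.le
  calc (S.card : ℝ) ≤ (((insert 1 ((range (Nat.log 2 N + 1)).biUnion T)).card : ℕ) : ℝ) := by
        exact_mod_cast Finset.card_le_card hcov
    _ ≤ ((range (Nat.log 2 N + 1)).biUnion T).card + 1 := by exact_mod_cast Finset.card_insert_le _ _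
    _ ≤ ∑ i ∈ range (Nat.log 2 N + 1), ((T i).card : ℝ) + 1 := by
        have : (((range (Nat.log 2 N + 1)).biUnion T).card : ℝ) ≤
          ∑ i ∈ range (Nat.log 2 N + 1), ((T i).card : ℝ) := by exact_mod_cast Finset.card_biUnion_le
        linarith
    _ ≤ (range (Nat.log 2 N + 1)).card • (C1 * R ^ 5 * (N : ℝ) ^ (1 + κ / 2) / L) + 1 := by
        have := Finset.sum_le_card_nsmul _ _ _ hTc
        linarith
    _ = ((Nat.log 2 N : ℕ) + 1 : ℝ) * (C1 * R ^ 5 * (N : ℝ) ^ (1 + κ / 2) / L) + 1 := by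
        rw [nsmul_eq_mul, card_range]
        push_cast
        ring
    _ ≤ (C2 * (N : ℝ) ^ (κ / 2)) * (C1 * R ^ 5 * (N : ℝ) ^ (1 + κ / 2) / L) + 1 := by
        have h5 := mul_le_mul_of_nonneg_right (h3 N hN)
          (show 0 ≤ C1 * R ^ 5 * (N : ℝ) ^ (1 + κ / 2) / L by positivity)
        linarith
    _ = C1 * C2 * (R ^ 5 * (N : ℝ) ^ (1 + κ) / L) + 1 := by
        have h5 : (N : ℝ) ^ (1 + κ) = (N : ℝ) ^ (κ / 2) * (N : ℝ) ^ (1 + κ / 2) := by
          rw [← Real.rpow_add hN0]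
          congr 1
          ring
        rw [h5]
        ring
    _ ≤ (C1 * C2 + 1) * R ^ 5 * (N : ℝ) ^ (1 + κ) / L := by
        have : (C1 * C2 + 1) * R ^ 5 * (N : ℝ) ^ (1 + κ) / L =
          C1 * C2 * (R ^ 5 * (N : ℝ) ^ (1 + κ) / L) + R ^ 5 * (N : ℝ) ^ (1 + κ) / L := by ring
        rw [this]
        linarith

end MPC
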